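import Pool.Agent.Q12.CM.Kap

/-! # Small autocorrelations from correlations along one element -/

set_option autoImplicit false

open Finset
open scoped ComplexConjugate

namespace Pool.Agent.Q12.CM

section

variable {G : Type} [CommGroup G] [Fintype G]

theorem pair_eq (F : G → ℂ) (c : G) (j l : ℕ) :
    ‖(∑ g, F (c ^ j * g) * conj (F (c ^ l * g))) / (Fintype.card G : ℂ)‖ =
      ‖AC F (c ^ ((j - l) + (l - j)))‖ := by
  rcases le_total l j with h | h
  · obtain ⟨d, rfl⟩ := Nat.exists_eq_add_of_le h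
    rw [show (l + d - l) + (l - (l + d)) = d by omega]
    unfold AC
    congr 2
    refine Fintype.sum_equiv (Equiv.mulLeft (c ^ l)) _ _ fun g => ?_
    simp only [Equiv.coe_mulLeft]
    rw [pow_add, mul_comm (c ^ l) (c ^ d), mul_assoc]
  · obtain ⟨d, rfl⟩ := Nat.exists_eq_add_of_le h
    rw [show (j - (j + d)) + (j + d - j) = d by omega]
    have e : (∑ g, F (c ^ j * g) * conj (F (c ^ (j + d) * g))) / (Fintype.card G : ℂ) =
        conj (AC F (c ^ d)) := by
      unfold AC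
      rw [map_div₀, map_sum, Complex.conj_natCast]
      congr 1
      refine Fintype.sum_equiv (Equiv.mulLeft (c ^ j)) _ _ fun g => ?_
      simp only [Equiv.coe_mulLeft]
      rw [map_mul, Complex.conj_conj, mul_comm, pow_add, mul_comm (c ^ j) (c ^ d), mul_assoc]
    rw [e, Complex.norm_conj]

open Classical in
/-- the twisted sums over the cosets of a subgroup which contains `c`, in mean square -/
theorem coset_sq_cor (H : Subgroup G) {c : G} (hc : c ∈ H) (F : G → ℂ) (ψ : H →* ℂ) (k : ℕ)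
    (hk : 0 < k) :
    (∑ y : G, ‖W ψ fun h : H => F (y * h)‖ ^ 2) / Fintype.card G ≤
      (∑ j ∈ range k, ∑ l ∈ range k, ‖AC F (c ^ ((j - l) + (l - j)))‖) / (k : ℝ) ^ 2 := by
  have hp := card_pos' (G := G)
  have hpH := card_pos' (G := H)
  have hk' : (0 : ℝ) < k := by exact_mod_cast hk
  set ζ : ℂ := ψ ⟨c, hc⟩ with hζ
  have hζ1 : ‖ζ‖ = 1 := norm_char ψ _
  set Φ : G → ℂ := fun g => ∑ j ∈ range k, ζ ^ j * F (c ^ j * g) with hΦ
  have h1 : ∀ y : G, (k : ℂ) * (W ψ fun h : H => F (y * h)) = W ψ fun h : H => Φ (y * h) := by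
    intro y
    have h2 : ∀ j : ℕ, (W ψ fun h : H => F (y * h)) =
        W ψ fun h : H => ζ ^ j * F (c ^ j * (y * h)) := by
      intro j
      unfold W
      congr 1
      refine (Fintype.sum_equiv (Equiv.mulRight ((⟨c, hc⟩ : H) ^ j)) _ _ fun h => ?_).symm
      simp only [Equiv.coe_mulRight, map_mul, map_pow, Subgroup.coe_mul, Subgroup.coe_pow, ← hζ]
      rw [show y * ((h : G) * c ^ j) = c ^ j * (y * h) by rw [← mul_assoc, mul_comm]]
      ring
    have h3 : (k : ℂ) * (W ψ fun h : H => F (y * h)) =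
        ∑ j ∈ range k, W ψ fun h : H => ζ ^ j * F (c ^ j * (y * h)) := by
      rw [← Finset.sum_congr rfl fun j _ => h2 j, sum_const, card_range, nsmul_eq_mul]
    rw [h3]
    unfold W
    rw [← Finset.sum_div, Finset.sum_comm]
    congr 1
    refine Finset.sum_congr rfl fun h _ => ?_
    rw [← Finset.mul_sum]
  have h4 : ∀ y : G, (k : ℝ) ^ 2 * ‖W ψ fun h : H => F (y * h)‖ ^ 2 ≤
      (∑ h : H, ‖Φ (y * h)‖ ^ 2) / Fintype.card H := by
    intro y
    have h5 : (k : ℝ) * ‖W ψ fun h : H => F (y * h)‖ ≤ (∑ h : H, ‖Φ (y * h)‖) / Fintype.card H := by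
      have h6 : (k : ℝ) * ‖W ψ fun h : H => F (y * h)‖ =
          ‖(k : ℂ) * (W ψ fun h : H => F (y * h))‖ := by rw [norm_mul, Complex.norm_natCast]
      rw [h6, h1]
      exact W_le ψ fun h : H => Φ (y * h)
    have h7 : (∑ h : H, ‖Φ (y * h)‖) ^ 2 ≤ Fintype.card H * ∑ h : H, ‖Φ (y * h)‖ ^ 2 := by
      have := sq_sum_le_card_mul_sum_sq (s := (univ : Finset H)) (f := fun h : H => ‖Φ (y * h)‖)
      rwa [card_univ] at this
    calc (k : ℝ) ^ 2 * ‖W ψ fun h : H => F (y * h)‖ ^ 2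
        = ((k : ℝ) * ‖W ψ fun h : H => F (y * h)‖) ^ 2 := by ring
      _ ≤ ((∑ h : H, ‖Φ (y * h)‖) / Fintype.card H) ^ 2 := pow_le_pow_left₀ (by positivity) h5 2
      _ ≤ (∑ h : H, ‖Φ (y * h)‖ ^ 2) / Fintype.card H := by
          rw [div_pow, div_le_div_iff₀ (by positivity) hpH]
          nlinarith [h7, hpH]
  have h5 : (k : ℝ) ^ 2 * ∑ y : G, ‖W ψ fun h : H => F (y * h)‖ ^ 2 ≤ ∑ g : G, ‖Φ g‖ ^ 2 := by
    rw [Finset.mul_sum]
    refine (Finset.sum_le_sum fun y _ => h4 y).trans (le_of_eq ?_)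
    rw [← Finset.sum_div, Finset.sum_comm, div_eq_iff hpH.ne']
    have h6 : ∀ h : H, ∑ y : G, ‖Φ (y * h)‖ ^ 2 = ∑ g : G, ‖Φ g‖ ^ 2 := fun h =>
      Fintype.sum_equiv (Equiv.mulRight (h : G)) _ _ fun y => rfl
    rw [Finset.sum_congr rfl fun h _ => h6 h, Finset.sum_const, card_univ, nsmul_eq_mul, mul_comm]
  have h6 : (∑ g : G, ‖Φ g‖ ^ 2) / Fintype.card G ≤ ∑ j ∈ range k, ∑ l ∈ range k,
      ‖AC F (c ^ ((j - l) + (l - j)))‖ := by
    have e1 : (((∑ g : G, ‖Φ g‖ ^ 2) / Fintype.card G : ℝ) : ℂ) = ∑ j ∈ range k, ∑ l ∈ range k,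
        ζ ^ j * conj (ζ ^ l) *
          ((∑ g, F (c ^ j * g) * conj (F (c ^ l * g))) / (Fintype.card G : ℂ)) := by
      have e3 : ∀ g, ((‖Φ g‖ : ℂ)) ^ 2 = ∑ j ∈ range k, ∑ l ∈ range k,
          ζ ^ j * conj (ζ ^ l) * (F (c ^ j * g) * conj (F (c ^ l * g))) := by
        intro g
        rw [← Complex.mul_conj', hΦ, map_sum, Finset.sum_mul_sum]
        refine Finset.sum_congr rfl fun j _ => Finset.sum_congr rfl fun l _ => ?_
        rw [map_mul]
        ring
      push_cast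
      rw [Finset.sum_congr rfl fun g _ => e3 g, Finset.sum_comm, Finset.sum_div]
      refine Finset.sum_congr rfl fun j _ => ?_
      rw [Finset.sum_comm, Finset.sum_div]
      refine Finset.sum_congr rfl fun l _ => ?_
      rw [← Finset.mul_sum, mul_div_assoc]
    have h7 : (∑ g : G, ‖Φ g‖ ^ 2) / Fintype.card G =
        ‖(((∑ g : G, ‖Φ g‖ ^ 2) / Fintype.card G : ℝ) : ℂ)‖ := by
      rw [Complex.norm_real, Real.norm_of_nonneg (by positivity)]
    rw [h7, e1]
    refine (norm_sum_le _ _).trans (Finset.sum_le_sum fun j _ => ?_)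
    refine (norm_sum_le _ _).trans (Finset.sum_le_sum fun l _ => ?_)
    rw [norm_mul, norm_mul, Complex.norm_conj, norm_pow, norm_pow, hζ1, one_pow, one_pow,
      one_mul, one_mul, pair_eq]
  rw [le_div_iff₀ (by positivity)]
  calc (∑ y : G, ‖W ψ fun h : H => F (y * h)‖ ^ 2) / Fintype.card G * (k : ℝ) ^ 2
      = ((k : ℝ) ^ 2 * ∑ y : G, ‖W ψ fun h : H => F (y * h)‖ ^ 2) / Fintype.card G := by ring
    _ ≤ (∑ g : G, ‖Φ g‖ ^ 2) / Fintype.card G := by gcongr
    _ ≤ _ := h6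

theorem AC_le {F : G → ℂ} {C : ℝ} (hC : ∀ g, ‖F g‖ ≤ C) (u : G) : ‖AC F u‖ ≤ C ^ 2 := by
  have hp := card_pos' (G := G)
  have hC0 : 0 ≤ C := (norm_nonneg _).trans (hC 1)
  unfold AC
  rw [norm_div, Complex.norm_natCast, div_le_iff₀ hp]
  refine (norm_sum_le _ _).trans ?_
  calc ∑ g, ‖F (u * g) * conj (F g)‖ ≤ ∑ _g : G, C ^ 2 := by
        refine Finset.sum_le_sum fun g _ => ?_
        rw [norm_mul, Complex.norm_conj, sq]
        exact mul_le_mul (hC _) (hC _) (norm_nonneg _) hC0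
    _ = C ^ 2 * Fintype.card G := by rw [Finset.sum_const, card_univ, nsmul_eq_mul, mul_comm]

open Classical in
/-- **Small autocorrelations on all subgroups which contain a power of `c`.** -/
theorem small_of_cor (H : Subgroup G) {F : G → ℂ} {C η δ : ℝ} (hC : ∀ g, ‖F g‖ ≤ C) {c : G}
    {K0 N R r : ℕ} (hN : 0 < N) (hr1 : 1 ≤ r) (hr2 : r ≤ R) (hc : c ^ r ∈ H) (hη0 : 0 ≤ η)
    (hη : ∀ k, K0 ≤ k → k ≤ R * N → ‖AC F (c ^ k)‖ ≤ η) (hδ : η + 2 * K0 * C ^ 2 / N ≤ δ) :
    (∑ h : H, ‖AC F (h : G)‖) / Fintype.card H ≤ √δ * C := by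
  have hN' : (0 : ℝ) < N := by exact_mod_cast hN
  refine AC_sub H hC fun ψ => (coset_sq_cor H hc F ψ N hN).trans (le_trans ?_ hδ)
  have h1 : ∀ j ∈ range N, ∀ l ∈ range N, ‖AC F ((c ^ r) ^ ((j - l) + (l - j)))‖ ≤
      η + if (j - l) + (l - j) < K0 then C ^ 2 else 0 := by
    intro j hj l hl
    rw [mem_range] at hj hl
    split_ifs with h
    · linarith [AC_le hC ((c ^ r) ^ ((j - l) + (l - j)))]
    · rw [add_zero, ← pow_mul]
      refine hη _ ?_ ?_
      · push Not at h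
        exact h.trans (Nat.le_mul_of_pos_left _ hr1)
      · exact Nat.mul_le_mul hr2 (by omega)
  have h2 : ∀ j, ∑ l ∈ range N, (if (j - l) + (l - j) < K0 then C ^ 2 else 0) ≤ 2 * K0 * C ^ 2 := by
    intro j
    rw [← Finset.sum_filter, Finset.sum_const, nsmul_eq_mul]
    refine mul_le_mul_of_nonneg_right ?_ (sq_nonneg C)
    have h3 : (range N).filter (fun l => (j - l) + (l - j) < K0) ⊆ Finset.Ico (j + 1 - K0) (j + K0) := by
      intro l hl
      rw [mem_filter, mem_range] at hl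
      rw [mem_Ico]
      omega
    have h4 := Finset.card_le_card h3
    rw [Nat.card_Ico] at h4
    have h5 : ((range N).filter (fun l => (j - l) + (l - j) < K0)).card ≤ 2 * K0 := by omega
    exact_mod_cast h5
  rw [div_le_iff₀ (by positivity)]
  calc ∑ j ∈ range N, ∑ l ∈ range N, ‖AC F ((c ^ r) ^ ((j - l) + (l - j)))‖
      ≤ ∑ j ∈ range N, ∑ l ∈ range N, (η + if (j - l) + (l - j) < K0 then C ^ 2 else 0) :=
        Finset.sum_le_sum fun j hj => Finset.sum_le_sum fun l hl => h1 j hj l hl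
    _ = ∑ j ∈ range N, (N * η + ∑ l ∈ range N, if (j - l) + (l - j) < K0 then C ^ 2 else 0) := by
        refine Finset.sum_congr rfl fun j _ => ?_
        rw [Finset.sum_add_distrib, Finset.sum_const, card_range, nsmul_eq_mul]
    _ ≤ ∑ _j ∈ range N, (N * η + 2 * K0 * C ^ 2) :=
        Finset.sum_le_sum fun j _ => by linarith [h2 j]
    _ = (η + 2 * K0 * C ^ 2 / N) * (N : ℝ) ^ 2 := by
        rw [Finset.sum_const, card_range, nsmul_eq_mul]
        field_simp

/-- the autocorrelation of a function minus a constant -/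
theorem AC_sub_const (f : G → ℂ) (m : ℂ) (u : G) : AC (fun g => f g - m) u =
    (AC f u - m * conj m) - conj m * ((∑ g, f g) / Fintype.card G - m) -
      m * (conj ((∑ g, f g) / Fintype.card G) - conj m) := by
  have hc := card_ne (G := G)
  have h1 : ∑ g, f (u * g) = ∑ g, f g := Fintype.sum_equiv (Equiv.mulLeft u) _ _ fun g => rfl
  have h2 : ∑ g, (f (u * g) - m) * conj (f g - m) = ∑ g, f (u * g) * conj (f g) -
      conj m * ∑ g, f g - m * conj (∑ g, f g) + (Fintype.card G : ℂ) * (m * conj m) := by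
    have e : ∀ g, (f (u * g) - m) * conj (f g - m) = f (u * g) * conj (f g) - conj m * f (u * g) -
        m * conj (f g) + m * conj m := by
      intro g
      rw [map_sub]
      ring
    rw [Finset.sum_congr rfl fun g _ => e g, Finset.sum_add_distrib, Finset.sum_sub_distrib,
      Finset.sum_sub_distrib, ← Finset.mul_sum, ← Finset.mul_sum, h1, ← map_sum, Finset.sum_const,
      card_univ, nsmul_eq_mul]
  unfold AC
  rw [h2, map_div₀, Complex.conj_natCast]
  field_simp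
  ring

theorem AC_sub_const_le {f : G → ℂ} {m : ℂ} {u : G} {C ε : ℝ} (hm : ‖m‖ ≤ C) (hε : 0 ≤ ε)
    (h1 : ‖AC f u - m * conj m‖ ≤ ε) (h2 : ‖(∑ g, f g) / Fintype.card G - m‖ ≤ ε) :
    ‖AC (fun g => f g - m) u‖ ≤ (1 + 2 * C) * ε := by
  have hC : 0 ≤ C := (norm_nonneg _).trans hm
  rw [AC_sub_const]
  refine (norm_sub_le _ _).trans ?_
  have h3 := norm_sub_le (AC f u - m * conj m) (conj m * ((∑ g, f g) / Fintype.card G - m))
  have h4 : ‖conj m * ((∑ g, f g) / Fintype.card G - m)‖ ≤ C * ε := by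
    rw [norm_mul, Complex.norm_conj]
    exact mul_le_mul hm h2 (norm_nonneg _) hC
  have h5 : ‖m * (conj ((∑ g, f g) / Fintype.card G) - conj m)‖ ≤ C * ε := by
    rw [norm_mul, ← map_sub, Complex.norm_conj]
    exact mul_le_mul hm h2 (norm_nonneg _) hC
  linarith

end

end Pool.Agent.Q12.CM
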