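import Pool.Agent.Q12.CM.Sub

/-! # Products of packets: one packet with small index, and the decoupling -/

set_option autoImplicit false

open Finset
open scoped ComplexConjugate

namespace Pool.Agent.Q12.CM

section one

variable {G : Type*} [CommGroup G] [Fintype G]

theorem norm_ES_le {κ : Type*} [Fintype κ] {F : κ → G → ℂ} {C : ℝ}
    (hC : ∀ j g, ‖F j g‖ ≤ C) (B : Subgroup G) (a : κ → G) : ‖ES F B a‖ ≤ C ^ Fintype.card κ := by
  classical
  unfold ES
  rw [finsum_eq_sum_of_fintype, norm_div, Complex.norm_natCast]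
  have hB : (0 : ℝ) < Nat.card B := by exact_mod_cast Nat.card_pos
  rw [div_le_iff₀ hB]
  refine (norm_sum_le _ _).trans ?_
  calc ∑ b : B, ‖∏ j, F j (b * a j)‖ ≤ ∑ _b : B, C ^ Fintype.card κ := by
        refine Finset.sum_le_sum fun b _ => ?_
        rw [norm_prod]
        refine (Finset.prod_le_prod (fun _ _ => norm_nonneg _) fun j _ => hC j _).trans (le_of_eq ?_)
        rw [Finset.prod_const, card_univ]
    _ = C ^ Fintype.card κ * Nat.card B := by
        rw [Finset.sum_const, card_univ, nsmul_eq_mul, mul_comm, Nat.card_eq_fintype_card]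

/-- the exceptions in one packet -/
def Ex {n : ℕ} (F : Fin n → G → ℂ) (m : Fin n → ℂ) (B : Subgroup G) (ε : ℝ) : Set (Fin n → G) :=
  {a | ∃ x : G, ε < ‖ES F B (fun j => x * a j) - ∏ j, m j‖ ∨
    ε < ‖ES F B (fun j => x * (a j)⁻¹) - ∏ j, m j‖}

/-- the constant -/
noncomputable def Cn (n : ℕ) (C Cw : ℝ) : ℝ := 1 + 2 * C ^ n + 2 * n * √Cw * (2 * C) ^ n

/-- **One packet, subgroups of small index.** -/
theorem single {n : ℕ} {F : Fin n → G → ℂ} {m : Fin n → ℂ} {C w Cw T : ℝ} (hC1 : 1 ≤ C)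
    (hC : ∀ j g, ‖F j g‖ ≤ C) (hm : ∀ j, ‖m j‖ ≤ C) {B : Subgroup G} (hT1 : 1 ≤ T)
    (hM : (B.index : ℝ) ≤ T) (hCw : 0 ≤ Cw) (hwT : w ≤ Cw * (T ^ 8)⁻¹)
    (hW : ∀ j, ∀ χ : G →* ℂ, ‖W χ fun g => F j g - m j‖ ≤ w) :
    ((Ex F m B (Cn n C Cw * T⁻¹)).ncard : ℝ) ≤
      if 2 ≤ n then T⁻¹ * (Fintype.card G : ℝ) ^ n else 0 := by
  classical
  have hp := card_pos' (G := G)
  have hT0 : 0 < T := by linarith
  have hCn : 0 < Cn n C Cw := by unfold Cn; positivity
  have hε : 0 < Cn n C Cw * T⁻¹ := by positivity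
  have hM0 : (0 : ℝ) ≤ B.index := Nat.cast_nonneg _
  have h1 := count_all hC1 hC hm (le_refl B.index) hW hε
  have hR : 2 * (B.index : ℝ) * (n * (√(B.index * w) * (2 * C) ^ n) / (Cn n C Cw * T⁻¹)) ≤ T⁻¹ := by
    have h2 : √(B.index * w) ≤ √Cw * (T ^ 3)⁻¹ := by
      rw [Real.sqrt_le_left (by positivity), mul_pow, Real.sq_sqrt hCw]
      calc (B.index : ℝ) * w ≤ B.index * (Cw * (T ^ 8)⁻¹) := by gcongr
        _ ≤ T * (Cw * (T ^ 8)⁻¹) := by gcongr
        _ = Cw * (T ^ 7)⁻¹ := by field_simp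
        _ ≤ Cw * ((T ^ 3)⁻¹) ^ 2 := by
            rw [inv_pow (T ^ 3) 2, ← pow_mul T 3 2]
            have : (T ^ 7)⁻¹ ≤ (T ^ (3 * 2))⁻¹ := by
              apply inv_anti₀ (by positivity)
              exact pow_le_pow_right₀ hT1 (by norm_num)
            gcongr
    have h3 : 2 * n * √Cw * (2 * C) ^ n ≤ Cn n C Cw := by
      unfold Cn
      have : 0 ≤ C ^ n := by positivity
      linarith
    calc 2 * (B.index : ℝ) * (n * (√(B.index * w) * (2 * C) ^ n) / (Cn n C Cw * T⁻¹))
        ≤ 2 * T * (n * ((√Cw * (T ^ 3)⁻¹) * (2 * C) ^ n) / (Cn n C Cw * T⁻¹)) := by gcongr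
      _ = (2 * n * √Cw * (2 * C) ^ n) / Cn n C Cw * T⁻¹ := by field_simp
      _ ≤ 1 * T⁻¹ := by
          refine mul_le_mul_of_nonneg_right ?_ (by positivity)
          rw [div_le_one hCn]
          exact h3
      _ = T⁻¹ := one_mul _
  have h4 : ((Ex F m B (Cn n C Cw * T⁻¹)).ncard : ℝ) ≤ T⁻¹ * (Fintype.card G : ℝ) ^ n :=
    h1.trans (by gcongr)
  split_ifs with hn
  · exact h4
  · have hempty : Ex F m B (Cn n C Cw * T⁻¹) = ∅ := by
      by_contra hne
      obtain ⟨a, ha⟩ := Set.nonempty_iff_ne_empty.2 hne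
      -- the deviation is bounded
      have hdev : ∀ a' : Fin n → G, ‖ES F B a' - ∏ j, m j‖ ≤ 2 * C ^ n := by
        intro a'
        have e1 := norm_ES_le hC B a'
        have e2 : ‖∏ j, m j‖ ≤ C ^ n := by
          rw [norm_prod]
          refine (Finset.prod_le_prod (fun _ _ => norm_nonneg _) fun j _ => hm j).trans (le_of_eq ?_)
          rw [Finset.prod_const, card_univ, Fintype.card_fin]
        rw [Fintype.card_fin] at e1
        exact (norm_sub_le _ _).trans (by linarith)
      have hT : 1 < T := by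
        by_contra hT
        have hT' : T = 1 := le_antisymm (not_lt.1 hT) hT1
        obtain ⟨x, hx⟩ := ha
        have h5 : 2 * C ^ n ≤ Cn n C Cw * T⁻¹ := by
          rw [hT', inv_one, mul_one]
          unfold Cn
          have : 0 ≤ 2 * n * √Cw * (2 * C) ^ n := by positivity
          linarith
        rcases hx with hx | hx
        · exact absurd (hdev _) (not_le.2 (lt_of_le_of_lt h5 hx))
        · exact absurd (hdev _) (not_le.2 (lt_of_le_of_lt h5 hx))
      -- all tuples are exceptions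
      have hall : Ex F m B (Cn n C Cw * T⁻¹) = Set.univ := by
        rw [Set.eq_univ_iff_forall]
        intro a'
        obtain ⟨x, hx⟩ := ha
        rcases Nat.lt_or_ge 0 n with hn0 | hn0
        · have hn1 : n = 1 := by omega
          subst hn1
          rcases hx with hx | hx
          · refine ⟨x * a 0 * (a' 0)⁻¹, Or.inl ?_⟩
            have e : (fun j => x * a 0 * (a' 0)⁻¹ * a' j) = fun j => x * a j := by
              funext j
              rw [Subsingleton.elim j 0, inv_mul_cancel_right]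
            rw [e]
            exact hx
          · refine ⟨x * (a 0)⁻¹ * a' 0, Or.inr ?_⟩
            have e : (fun j => x * (a 0)⁻¹ * a' 0 * (a' j)⁻¹) = fun j => x * (a j)⁻¹ := by
              funext j
              rw [Subsingleton.elim j 0, mul_inv_cancel_right]
            rw [e]
            exact hx
        · have hn1 : n = 0 := by omega
          subst hn1
          rw [Subsingleton.elim a' a]
          exact ⟨x, hx⟩
      rw [hall, Set.ncard_univ, Nat.card_eq_fintype_card, Fintype.card_fun, Fintype.card_fin] at h4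
      push_cast at h4
      have h5 : 0 < (Fintype.card G : ℝ) ^ n := by positivity
      have h6 : T⁻¹ < 1 := inv_lt_one_of_one_lt₀ hT
      nlinarith
    rw [hempty, Set.ncard_empty]
    simp

end one

section multi

variable {r : ℕ} {G : Fin r → Type} [∀ i, CommGroup (G i)] [∀ i, Fintype (G i)]

/-- the average over a subgroup of the product -/
noncomputable def EM {n : Fin r → ℕ} (F : ∀ i, Fin (n i) → G i → ℂ) (B : Subgroup (∀ i, G i))
    (a : ∀ i, Fin (n i) → G i) : ℂ :=
  (∑ᶠ b : B, ∏ i, ∏ j, F i j (b.1 i * a i j)) / Nat.card B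

/-- **Decoupling.** -/
theorem decouple {n : Fin r → ℕ} (F : ∀ i, Fin (n i) → G i → ℂ) (B : Subgroup (∀ i, G i))
    (Bi : ∀ i, Subgroup (G i)) (hB : Subgroup.pi Set.univ Bi ≤ B) (a : ∀ i, Fin (n i) → G i) :
    EM F B a = (∑ᶠ b : B, ∏ i, ES (F i) (Bi i) fun j => b.1 i * a i j) / Nat.card B := by
  classical
  unfold EM
  congr 1
  rw [finsum_eq_sum_of_fintype, finsum_eq_sum_of_fintype]
  -- the product of the subgroups
  have h1 : ∀ b : ∀ i, G i, ∏ i, ES (F i) (Bi i) (fun j => b i * a i j) =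
      (∑ c ∈ Fintype.piFinset fun i => (univ : Finset (G i)).filter fun g => g ∈ Bi i,
        ∏ i, ∏ j, F i j (c i * (b i * a i j))) / ∏ i, (Nat.card (Bi i) : ℂ) := by
    intro b
    have h2 : ∀ i, ES (F i) (Bi i) (fun j => b i * a i j) =
        (∑ c ∈ (univ : Finset (G i)).filter (fun g => g ∈ Bi i), ∏ j, F i j (c * (b i * a i j))) /
          (Nat.card (Bi i) : ℂ) := by
      intro i
      rw [ES_eq, EB]
      congr 2
      rw [Nat.card_eq_fintype_card, ← Fintype.card_subtype]
    simp_rw [h2]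
    rw [Finset.prod_div_distrib, Finset.prod_univ_sum]
  have hcard : ((Fintype.piFinset fun i => (univ : Finset (G i)).filter fun g => g ∈ Bi i).card : ℂ) =
      ∏ i, (Nat.card (Bi i) : ℂ) := by
    rw [Fintype.card_piFinset]
    push_cast
    refine Finset.prod_congr rfl fun i _ => ?_
    rw [Nat.card_eq_fintype_card, ← Fintype.card_subtype]
  have hne : (∏ i, (Nat.card (Bi i) : ℂ)) ≠ 0 :=
    Finset.prod_ne_zero_iff.2 fun i _ => by exact_mod_cast Nat.card_pos.ne'
  simp_rw [h1]
  rw [← Finset.sum_div, Finset.sum_comm, eq_div_iff hne, ← hcard]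
  have h3 : ∀ c ∈ Fintype.piFinset fun i => (univ : Finset (G i)).filter fun g => g ∈ Bi i,
      ∑ b : B, ∏ i, ∏ j, F i j (c i * (b.1 i * a i j)) = ∑ b : B, ∏ i, ∏ j, F i j (b.1 i * a i j) := by
    intro c hc
    have hcB : c ∈ B := by
      apply hB
      rw [Subgroup.mem_pi]
      intro i _
      rw [Fintype.mem_piFinset] at hc
      exact (mem_filter.1 (hc i)).2
    refine Fintype.sum_equiv (Equiv.mulLeft (⟨c, hcB⟩ : B)) _ _ fun b => ?_
    refine Finset.prod_congr rfl fun i _ => Finset.prod_congr rfl fun j _ => ?_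
    simp only [Equiv.coe_mulLeft, Subgroup.coe_mul, Pi.mul_apply]
    rw [mul_assoc]
  rw [Finset.sum_congr rfl h3, Finset.sum_const, nsmul_eq_mul, mul_comm]

omit [∀ i, CommGroup (G i)] [∀ i, Fintype (G i)] in
/-- products which are close -/
theorem prod_close {A m : Fin r → ℂ} {D : ℝ} (hD : 1 ≤ D) (hA : ∀ i, ‖A i‖ ≤ D) (hm : ∀ i, ‖m i‖ ≤ D)
    {e : Fin r → ℝ} (he : ∀ i, ‖A i - m i‖ ≤ e i) :
    ‖∏ i, A i - ∏ i, m i‖ ≤ D ^ r * ∑ i, e i := by
  classical
  have h := prod_sub_prod (G := ℂ) (fun _ g => g) m A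
  rw [h]
  refine (norm_sum_le _ _).trans ?_
  rw [Finset.mul_sum]
  refine Finset.sum_le_sum fun i _ => ?_
  rw [norm_prod, ← Finset.mul_prod_erase univ _ (mem_univ i), mul_comm]
  have he0 : 0 ≤ e i := (norm_nonneg _).trans (he i)
  have h1 : ‖Fi (fun _ g => g) m i i (A i)‖ ≤ e i := by
    have : Fi (fun _ g => g) m i i (A i) = A i - m i := by simp [Fi]
    rw [this]
    exact he i
  have h2 : ∏ j ∈ univ.erase i, ‖Fi (fun _ g => g) m i j (A j)‖ ≤ D ^ r := by
    calc ∏ j ∈ univ.erase i, ‖Fi (fun _ g => g) m i j (A j)‖ ≤ ∏ _j ∈ univ.erase i, D := by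
          refine Finset.prod_le_prod (fun _ _ => norm_nonneg _) fun j hj => ?_
          have hji : j ≠ i := (Finset.mem_erase.1 hj).1
          unfold Fi
          split_ifs
          · exact hm j
          · exact hA j
      _ = D ^ (univ.erase i : Finset (Fin r)).card := by rw [Finset.prod_const]
      _ ≤ D ^ r := by
          refine pow_le_pow_right₀ hD ?_
          rw [card_erase_of_mem (mem_univ i), card_univ, Fintype.card_fin]
          omega
  exact mul_le_mul h2 h1 (norm_nonneg _) (by positivity)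

/-- the exceptions for a product of packets -/
def ExM {n : Fin r → ℕ} (F : ∀ i, Fin (n i) → G i → ℂ) (m : ∀ i, Fin (n i) → ℂ)
    (B : Subgroup (∀ i, G i)) (ε : ℝ) : Set (∀ i, Fin (n i) → G i) :=
  {a | ∃ (x : ∀ i, G i) (s : Fin r → ℤˣ),
    ε < ‖EM F B (fun i j => x i * a i j ^ (s i : ℤ)) - ∏ i, ∏ j, m i j‖}

/-- **Products of packets.** -/
theorem multi {n : Fin r → ℕ} {F : ∀ i, Fin (n i) → G i → ℂ} {m : ∀ i, Fin (n i) → ℂ} {C Cw K : ℝ}
    {T w : Fin r → ℝ} (hC1 : 1 ≤ C) (hC : ∀ i j g, ‖F i j g‖ ≤ C) (hm : ∀ i j, ‖m i j‖ ≤ C)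
    {B : Subgroup (∀ i, G i)} {Bi : ∀ i, Subgroup (G i)} (hB : Subgroup.pi Set.univ Bi ≤ B)
    (hT1 : ∀ i, 1 ≤ T i) (hM : ∀ i, ((Bi i).index : ℝ) ≤ T i) (hCw : 0 ≤ Cw)
    (hwT : ∀ i, w i ≤ Cw * (T i ^ 8)⁻¹)
    (hW : ∀ i j, ∀ χ : G i →* ℂ, ‖W χ fun g => F i j g - m i j‖ ≤ w i)
    (hK : ∀ i, (C ^ ∑ i, n i) ^ r * Cn (n i) C Cw ≤ K) :
    ((ExM F m B (K * ∑ i, (T i)⁻¹)).ncard : ℝ) ≤
      (∑ i, if 2 ≤ n i then (T i)⁻¹ else 0) * ∏ i, (Fintype.card (G i) : ℝ) ^ n i := by
  classical
  have hC0 : 0 ≤ C := by linarith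
  set N := ∑ i, n i with hN
  have hni : ∀ i, n i ≤ N := fun i => Finset.single_le_sum (f := n) (fun _ _ => Nat.zero_le _) (mem_univ i)
  have hCN : 1 ≤ C ^ N := one_le_pow₀ hC1
  set E : ∀ i, Set (Fin (n i) → G i) := fun i => Ex (F i) (m i) (Bi i) (Cn (n i) C Cw * (T i)⁻¹) with hE
  -- an exception is an exception in one of the packets
  have hsub : ExM F m B (K * ∑ i, (T i)⁻¹) ⊆
      ((univ : Finset (Fin r)).biUnion fun i => univ.filter fun a : ∀ i, Fin (n i) → G i => a i ∈ E i :
        Finset _) := by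
    intro a ha
    rw [mem_coe, mem_biUnion]
    by_contra hcon
    push Not at hcon
    have hgood : ∀ i, a i ∉ E i := by
      intro i hi
      exact hcon i (mem_univ _) (mem_filter.2 ⟨mem_univ _, hi⟩)
    obtain ⟨x, s, hx⟩ := ha
    refine absurd hx (not_lt.2 ?_)
    rw [decouple F B Bi hB]
    have hBp : (0 : ℝ) < Nat.card B := by exact_mod_cast Nat.card_pos
    have hBc : (Nat.card B : ℂ) ≠ 0 := by exact_mod_cast Nat.card_pos.ne'
    have h1 : ∀ b : B, ‖∏ i, ES (F i) (Bi i) (fun j => b.1 i * (x i * a i j ^ (s i : ℤ))) -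
        ∏ i, ∏ j, m i j‖ ≤ K * ∑ i, (T i)⁻¹ := by
      intro b
      have hcl : ∀ i, ‖ES (F i) (Bi i) (fun j => b.1 i * (x i * a i j ^ (s i : ℤ))) - ∏ j, m i j‖ ≤
          Cn (n i) C Cw * (T i)⁻¹ := by
        intro i
        have h2 : ¬ ∃ x : G i, Cn (n i) C Cw * (T i)⁻¹ < ‖ES (F i) (Bi i) (fun j => x * a i j) - ∏ j, m i j‖ ∨
          Cn (n i) C Cw * (T i)⁻¹ < ‖ES (F i) (Bi i) (fun j => x * (a i j)⁻¹) - ∏ j, m i j‖ := hgood i
        push Not at h2
        obtain ⟨h3, h4⟩ := h2 (b.1 i * x i)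
        rcases Int.units_eq_one_or (s i) with hs | hs
        · have e : (fun j => b.1 i * (x i * a i j ^ (s i : ℤ))) = fun j => b.1 i * x i * a i j := by
            funext j
            rw [hs, Units.val_one, zpow_one, mul_assoc]
          rw [e]
          exact h3
        · have e : (fun j => b.1 i * (x i * a i j ^ (s i : ℤ))) = fun j => b.1 i * x i * (a i j)⁻¹ := by
            funext j
            rw [hs, Units.val_neg, Units.val_one, zpow_neg, zpow_one, mul_assoc]
          rw [e]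
          exact h4
      have hA : ∀ i, ‖ES (F i) (Bi i) (fun j => b.1 i * (x i * a i j ^ (s i : ℤ)))‖ ≤ C ^ N := by
        intro i
        have h5 := norm_ES_le (hC i) (Bi i) (fun j => b.1 i * (x i * a i j ^ (s i : ℤ)))
        rw [Fintype.card_fin] at h5
        exact h5.trans (pow_le_pow_right₀ hC1 (hni i))
      have hm' : ∀ i, ‖∏ j, m i j‖ ≤ C ^ N := by
        intro i
        rw [norm_prod]
        refine (Finset.prod_le_prod (fun _ _ => norm_nonneg _) fun j _ => hm i j).trans ?_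
        rw [Finset.prod_const, card_univ, Fintype.card_fin]
        exact pow_le_pow_right₀ hC1 (hni i)
      refine (prod_close hCN hA hm' hcl).trans ?_
      rw [Finset.mul_sum, Finset.mul_sum]
      refine Finset.sum_le_sum fun i _ => ?_
      rw [← mul_assoc]
      have : 0 ≤ (T i)⁻¹ := inv_nonneg.2 (by linarith [hT1 i])
      exact mul_le_mul_of_nonneg_right (hK i) this
    rw [finsum_eq_sum_of_fintype]
    have h2 : (∑ b : B, ∏ i, ES (F i) (Bi i) (fun j => b.1 i * (x i * a i j ^ (s i : ℤ)))) / Nat.card B -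
        ∏ i, ∏ j, m i j = (∑ b : B, (∏ i, ES (F i) (Bi i) (fun j => b.1 i * (x i * a i j ^ (s i : ℤ))) -
          ∏ i, ∏ j, m i j)) / Nat.card B := by
      rw [Finset.sum_sub_distrib, Finset.sum_const, card_univ, nsmul_eq_mul, ← Nat.card_eq_fintype_card]
      field_simp
    rw [h2, norm_div, Complex.norm_natCast, div_le_iff₀ hBp]
    refine (norm_sum_le _ _).trans ?_
    refine (Finset.sum_le_card_nsmul _ _ _ fun b _ => h1 b).trans (le_of_eq ?_)
    rw [nsmul_eq_mul, card_univ, ← Nat.card_eq_fintype_card, mul_comm]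
  have h6 := Set.ncard_le_ncard hsub (Finset.finite_toSet _)
  rw [Set.ncard_coe_finset] at h6
  have h7 : ∀ i, ((univ.filter fun a : ∀ i, Fin (n i) → G i => a i ∈ E i).card : ℝ) ≤
      (if 2 ≤ n i then (T i)⁻¹ else 0) * ∏ i, (Fintype.card (G i) : ℝ) ^ n i := by
    intro i
    have h8 : (univ.filter fun a : ∀ i, Fin (n i) → G i => a i ∈ E i) =
        Fintype.piFinset fun k => if h : k = i then (univ.filter fun b : Fin (n k) → G k => b ∈ E k) else univ := by
      ext a
      simp only [mem_filter, mem_univ, true_and, Fintype.mem_piFinset]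
      constructor
      · intro h k
        by_cases hk : k = i
        · subst hk
          simpa using h
        · simp [hk]
      · intro h
        have := h i
        simpa using this
    have h9 : ∀ k, ((if h : k = i then (univ.filter fun b : Fin (n k) → G k => b ∈ E k) else univ :
        Finset (Fin (n k) → G k)).card : ℝ) ≤
        (if k = i then (if 2 ≤ n i then (T i)⁻¹ else 0) else 1) * (Fintype.card (G k) : ℝ) ^ n k := by
      intro k
      by_cases hk : k = i
      · subst hk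
        rw [dif_pos rfl, if_pos rfl]
        have h10 := single hC1 (hC k) (hm k) (hT1 k) (hM k) hCw (hwT k) (hW k)
        have h11 : (univ.filter fun b : Fin (n k) → G k => b ∈ E k).card = (E k).ncard := by
          rw [← Set.ncard_coe_finset]
          congr 1
          ext b
          simp
        rw [h11]
        refine h10.trans (le_of_eq ?_)
        split_ifs <;> simp
      · rw [dif_neg hk, if_neg hk, one_mul, card_univ, Fintype.card_fun, Fintype.card_fin]
        push_cast
        rfl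
    rw [h8, Fintype.card_piFinset]
    push_cast
    refine (Finset.prod_le_prod (fun _ _ => Nat.cast_nonneg _) fun k _ => h9 k).trans (le_of_eq ?_)
    rw [Finset.prod_mul_distrib, Finset.prod_ite_eq' univ i (fun _ => (if 2 ≤ n i then (T i)⁻¹ else 0))]
    simp
  calc ((ExM F m B (K * ∑ i, (T i)⁻¹)).ncard : ℝ)
      ≤ (((univ : Finset (Fin r)).biUnion fun i => univ.filter fun a : ∀ i, Fin (n i) → G i => a i ∈ E i).card : ℝ) := by
        exact_mod_cast h6
    _ ≤ ∑ i, ((univ.filter fun a : ∀ i, Fin (n i) → G i => a i ∈ E i).card : ℝ) := by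
        exact_mod_cast card_biUnion_le
    _ ≤ ∑ i, (if 2 ≤ n i then (T i)⁻¹ else 0) * ∏ i, (Fintype.card (G i) : ℝ) ^ n i :=
        Finset.sum_le_sum fun i _ => h7 i
    _ = _ := by rw [Finset.sum_mul]

end multi

end Pool.Agent.Q12.CM
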