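import Mathlib

/-! # Averages over subgroups of a finite abelian group: almost all translates -/

set_option autoImplicit false

open Finset
open scoped ComplexConjugate

namespace Pool.Agent.Q12.CM

variable {G : Type*} [CommGroup G] [Fintype G]

/-- the Fourier coefficient -/
noncomputable def W (χ : G →* ℂ) (F : G → ℂ) : ℂ := (∑ g, χ g * F g) / Fintype.card G

/-- the autocorrelation -/
noncomputable def AC (F : G → ℂ) (u : G) : ℂ := (∑ g, F (u * g) * conj (F g)) / Fintype.card G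

/-- a character from an additive character -/
def toM (ψ : AddChar (Additive G) ℂ) : G →* ℂ where
  toFun g := ψ (Additive.ofMul g)
  map_one' := by rw [ofMul_one, AddChar.map_zero_eq_one]
  map_mul' a b := by rw [ofMul_mul, AddChar.map_add_eq_mul]

lemma norm_toM (ψ : AddChar (Additive G) ℂ) (g : G) : ‖toM ψ g‖ = 1 := ψ.norm_apply _

lemma card_pos' : (0 : ℝ) < Fintype.card G := by
  exact_mod_cast Fintype.card_pos

lemma card_ne : (Fintype.card G : ℂ) ≠ 0 := by
  exact_mod_cast Fintype.card_ne_zero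

lemma sum_toM (g : G) [DecidableEq G] : ∑ ψ : AddChar (Additive G) ℂ, toM ψ g =
    if g = 1 then (Fintype.card G : ℂ) else 0 := by
  classical
  have h := AddChar.sum_apply_eq_ite (α := Additive G) (Additive.ofMul g)
  have e : (Additive.ofMul g = 0) = (g = 1) := by
    rw [← ofMul_one, Additive.ofMul.injective.eq_iff]
  rw [show (∑ ψ : AddChar (Additive G) ℂ, toM ψ g) = ∑ ψ : AddChar (Additive G) ℂ, ψ (Additive.ofMul g) from rfl, h]
  simp only [e]
  by_cases hg : g = 1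
  · rw [if_pos hg, if_pos hg]
    exact_mod_cast Fintype.card_congr (Additive.toMul (α := G))
  · rw [if_neg hg, if_neg hg]

lemma conj_toM (ψ : AddChar (Additive G) ℂ) (g : G) : conj (toM ψ g) = toM ψ g⁻¹ := by
  have h1 : toM ψ g * toM ψ g⁻¹ = 1 := by rw [← map_mul, mul_inv_cancel, map_one]
  have h2 : toM ψ g * conj (toM ψ g) = 1 := by
    rw [Complex.mul_conj', norm_toM]
    norm_num
  have h3 : toM ψ g ≠ 0 := by
    intro h
    rw [h, zero_mul] at h1
    exact zero_ne_one h1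
  exact mul_left_cancel₀ h3 (h2.trans h1.symm)

/-- Parseval -/
theorem parseval (F : G → ℂ) : ∑ ψ : AddChar (Additive G) ℂ, ‖W (toM ψ) F‖ ^ 2 =
    (∑ g, ‖F g‖ ^ 2) / Fintype.card G := by
  classical
  have hc := card_ne (G := G)
  apply Complex.ofReal_injective
  push_cast
  have h1 : ∀ ψ : AddChar (Additive G) ℂ, ((‖W (toM ψ) F‖ : ℂ)) ^ 2 =
      (∑ g, ∑ g', F g * conj (F g') * toM ψ (g * g'⁻¹)) / (Fintype.card G : ℂ) ^ 2 := by
    intro ψ
    rw [← Complex.mul_conj', W, map_div₀, map_sum, Complex.conj_natCast, div_mul_div_comm, ← sq,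
      Finset.sum_mul_sum]
    congr 1
    refine Finset.sum_congr rfl fun g _ => Finset.sum_congr rfl fun g' _ => ?_
    rw [map_mul conj, conj_toM, map_mul (toM ψ)]
    ring
  simp_rw [h1]
  rw [← Finset.sum_div, Finset.sum_comm]
  have h2 : ∀ g : G, ∑ ψ : AddChar (Additive G) ℂ, ∑ g', F g * conj (F g') * toM ψ (g * g'⁻¹) =
      (Fintype.card G : ℂ) * (‖F g‖ : ℂ) ^ 2 := by
    intro g
    rw [Finset.sum_comm]
    simp_rw [← Finset.mul_sum, sum_toM]
    rw [Finset.sum_eq_single g]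
    · rw [if_pos (mul_inv_cancel g), Complex.mul_conj']
      ring
    · intro g' _ hg
      rw [if_neg, mul_zero]
      intro h
      exact hg (inv_injective (eq_inv_of_mul_eq_one_right h))
    · intro h; exact absurd (mem_univ _) h
  simp_rw [h2]
  rw [← Finset.mul_sum]
  field_simp

/-- the Fourier coefficients of the autocorrelation -/
theorem W_AC (ψ : AddChar (Additive G) ℂ) (F : G → ℂ) : W (toM ψ) (AC F) = ((‖W (toM ψ) F‖ ^ 2 : ℝ) : ℂ) := by
  classical
  have hc := card_ne (G := G)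
  push_cast
  rw [← Complex.mul_conj', W, W, map_div₀, map_sum, Complex.conj_natCast, div_mul_div_comm, ← sq,
    Finset.sum_mul_sum]
  have h1 : ∑ u, toM ψ u * AC F u = (∑ g', ∑ u, toM ψ u * (F (u * g') * conj (F g'))) / Fintype.card G := by
    unfold AC
    simp_rw [mul_div_assoc', Finset.mul_sum]
    rw [← Finset.sum_div, Finset.sum_comm]
  rw [h1]
  have h2 : ∀ g' : G, ∑ u, toM ψ u * (F (u * g') * conj (F g')) =
      ∑ g, toM ψ g * F g * conj (toM ψ g' * F g') := by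
    intro g'
    refine Fintype.sum_equiv (Equiv.mulRight g') _ _ fun u => ?_
    simp only [Equiv.coe_mulRight]
    rw [map_mul conj, conj_toM, map_mul (toM ψ)]
    have e : toM ψ g' * toM ψ g'⁻¹ = 1 := by rw [← map_mul, mul_inv_cancel, map_one]
    linear_combination -(toM ψ u * F (u * g') * conj (F g')) * e
  simp_rw [h2]
  rw [Finset.sum_comm, div_div, ← sq]

/-- the mean square of the autocorrelation -/
theorem AC_sq (F : G → ℂ) : (∑ u, ‖AC F u‖ ^ 2) / Fintype.card G =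
    ∑ ψ : AddChar (Additive G) ℂ, ‖W (toM ψ) F‖ ^ 4 := by
  rw [← parseval]
  refine Finset.sum_congr rfl fun ψ _ => ?_
  rw [W_AC, Complex.norm_real, Real.norm_of_nonneg (by positivity)]
  ring

/-- the mean of `f` -/
noncomputable def av {α : Type*} [Fintype α] (f : α → ℝ) : ℝ := (∑ x, f x) / Fintype.card α

/-- the mean absolute value of the autocorrelation -/
theorem AC_one {F : G → ℂ} {C w : ℝ} (hC : ∀ g, ‖F g‖ ≤ C) (hW : ∀ χ : G →* ℂ, ‖W χ F‖ ≤ w) :
    (∑ u, ‖AC F u‖) / Fintype.card G ≤ w * C := by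
  have hp := card_pos' (G := G)
  have hC0 : 0 ≤ C := (norm_nonneg _).trans (hC 1)
  have hw0 : 0 ≤ w := (norm_nonneg _).trans (hW 1)
  have h1 : (∑ u, ‖AC F u‖ ^ 2) / Fintype.card G ≤ w ^ 2 * C ^ 2 := by
    rw [AC_sq]
    calc ∑ ψ : AddChar (Additive G) ℂ, ‖W (toM ψ) F‖ ^ 4
        ≤ ∑ ψ : AddChar (Additive G) ℂ, w ^ 2 * ‖W (toM ψ) F‖ ^ 2 := by
          refine Finset.sum_le_sum fun ψ _ => ?_
          have h2 : ‖W (toM ψ) F‖ ^ 2 ≤ w ^ 2 := pow_le_pow_left₀ (norm_nonneg _) (hW _) 2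
          calc ‖W (toM ψ) F‖ ^ 4 = ‖W (toM ψ) F‖ ^ 2 * ‖W (toM ψ) F‖ ^ 2 := by ring
            _ ≤ w ^ 2 * ‖W (toM ψ) F‖ ^ 2 := mul_le_mul_of_nonneg_right h2 (by positivity)
      _ = w ^ 2 * ((∑ g, ‖F g‖ ^ 2) / Fintype.card G) := by rw [← Finset.mul_sum, parseval]
      _ ≤ w ^ 2 * C ^ 2 := by
          refine mul_le_mul_of_nonneg_left ?_ (by positivity)
          rw [div_le_iff₀ hp]
          calc ∑ g, ‖F g‖ ^ 2 ≤ ∑ _g : G, C ^ 2 :=
                Finset.sum_le_sum fun g _ => pow_le_pow_left₀ (norm_nonneg _) (hC g) 2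
            _ = C ^ 2 * Fintype.card G := by
                rw [Finset.sum_const, card_univ, nsmul_eq_mul, mul_comm]
  have h2 : ((∑ u, ‖AC F u‖) / Fintype.card G) ^ 2 ≤ (w * C) ^ 2 := by
    have h3 : (∑ u, ‖AC F u‖) ^ 2 ≤ Fintype.card G * ∑ u, ‖AC F u‖ ^ 2 := by
      have := sq_sum_le_card_mul_sum_sq (s := (univ : Finset G)) (f := fun u => ‖AC F u‖)
      rwa [card_univ] at this
    rw [div_pow, mul_pow]
    refine le_trans ?_ h1
    rw [div_le_div_iff₀ (by positivity) hp]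
    nlinarith [h3, hp]
  exact (abs_le_of_sq_le_sq' h2 (by positivity)).2

/-- the average over the translate of `B` -/
noncomputable def EB {κ : Type*} [Fintype κ] (F : κ → G → ℂ) (B : Finset G) (a : κ → G) : ℂ :=
  (∑ b ∈ B, ∏ j, F j (b * a j)) / B.card

/-- **The mean square over all tuples.** -/
theorem mean_sq {κ : Type*} [Fintype κ] [DecidableEq κ] {F : κ → G → ℂ} {C w : ℝ} (hC1 : 1 ≤ C)
    (hC : ∀ j g, ‖F j g‖ ≤ C) {B : Finset G} (hB : B.Nonempty) {M : ℝ}
    (hM : (Fintype.card G : ℝ) ≤ M * B.card) (j₀ : κ) (hW : ∀ χ : G →* ℂ, ‖W χ (F j₀)‖ ≤ w) :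
    (∑ a : κ → G, ‖EB F B a‖ ^ 2) / (Fintype.card G : ℝ) ^ Fintype.card κ ≤
      M * w * C ^ (2 * Fintype.card κ) := by
  classical
  have hp := card_pos' (G := G)
  have hc := card_ne (G := G)
  have hC0 : 0 ≤ C := by linarith
  have hw0 : 0 ≤ w := (norm_nonneg _).trans (hW 1)
  have hBp : (0 : ℝ) < B.card := by exact_mod_cast hB.card_pos
  have hBc : (B.card : ℂ) ≠ 0 := by exact_mod_cast hB.card_pos.ne'
  have hACle : ∀ j u, ‖AC (F j) u‖ ≤ C ^ 2 := by
    intro j u
    unfold AC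
    rw [norm_div, Complex.norm_natCast, div_le_iff₀ hp]
    refine (norm_sum_le _ _).trans ?_
    calc ∑ g, ‖F j (u * g) * conj (F j g)‖ ≤ ∑ _g : G, C ^ 2 := by
          refine Finset.sum_le_sum fun g _ => ?_
          rw [norm_mul, Complex.norm_conj, sq]
          exact mul_le_mul (hC _ _) (hC _ _) (norm_nonneg _) hC0
      _ = C ^ 2 * Fintype.card G := by rw [Finset.sum_const, card_univ, nsmul_eq_mul, mul_comm]
  -- the expansion
  have key : (((∑ a : κ → G, ‖EB F B a‖ ^ 2) / (Fintype.card G : ℝ) ^ Fintype.card κ : ℝ) : ℂ) =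
      (∑ b ∈ B, ∑ b' ∈ B, ∏ j, AC (F j) (b * b'⁻¹)) / (B.card : ℂ) ^ 2 := by
    push_cast
    have h1 : ∀ a : κ → G, ((‖EB F B a‖ : ℂ)) ^ 2 =
        (∑ b ∈ B, ∑ b' ∈ B, ∏ j, (F j (b * a j) * conj (F j (b' * a j)))) / (B.card : ℂ) ^ 2 := by
      intro a
      rw [← Complex.mul_conj', EB, map_div₀, map_sum, Complex.conj_natCast, div_mul_div_comm, ← sq,
        Finset.sum_mul_sum]
      congr 1
      refine Finset.sum_congr rfl fun b _ => Finset.sum_congr rfl fun b' _ => ?_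
      rw [map_prod, ← Finset.prod_mul_distrib]
    simp_rw [h1]
    rw [← Finset.sum_div, div_div, mul_comm ((B.card : ℂ) ^ 2), ← div_div]
    congr 1
    rw [Finset.sum_comm, Finset.sum_div]
    refine Finset.sum_congr rfl fun b _ => ?_
    rw [Finset.sum_comm, Finset.sum_div]
    refine Finset.sum_congr rfl fun b' _ => ?_
    have h2 := Finset.prod_univ_sum (fun _ : κ => (univ : Finset G))
      (fun j x => F j (b * x) * conj (F j (b' * x)))
    rw [Fintype.piFinset_univ] at h2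
    rw [← h2]
    have h3 : ∀ j, ∑ x, F j (b * x) * conj (F j (b' * x)) = (Fintype.card G : ℂ) * AC (F j) (b * b'⁻¹) := by
      intro j
      unfold AC
      rw [mul_div_cancel₀ _ hc]
      refine Fintype.sum_equiv (Equiv.mulLeft b') _ _ fun x => ?_
      simp only [Equiv.coe_mulLeft]
      rw [show b * b'⁻¹ * (b' * x) = b * x by group]
    simp_rw [h3]
    rw [Finset.prod_mul_distrib, Finset.prod_const, card_univ, mul_div_assoc, mul_comm,
      div_mul_cancel₀ _ (pow_ne_zero _ hc)]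
  have hnn : 0 ≤ (∑ a : κ → G, ‖EB F B a‖ ^ 2) / (Fintype.card G : ℝ) ^ Fintype.card κ := by positivity
  have hk1 : 1 ≤ Fintype.card κ := Fintype.card_pos_iff.2 ⟨j₀⟩
  have h4 : (∑ a : κ → G, ‖EB F B a‖ ^ 2) / (Fintype.card G : ℝ) ^ Fintype.card κ ≤
      (∑ b ∈ B, ∑ b' ∈ B, C ^ (2 * (Fintype.card κ - 1)) * ‖AC (F j₀) (b * b'⁻¹)‖) / (B.card : ℝ) ^ 2 := by
    rw [← Real.norm_of_nonneg hnn, ← Complex.norm_real, key, norm_div, norm_pow, Complex.norm_natCast]
    refine div_le_div_of_nonneg_right ?_ (by positivity)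
    refine (norm_sum_le _ _).trans (Finset.sum_le_sum fun b _ => ?_)
    refine (norm_sum_le _ _).trans (Finset.sum_le_sum fun b' _ => ?_)
    rw [norm_prod, ← Finset.mul_prod_erase univ _ (mem_univ j₀), mul_comm]
    refine mul_le_mul_of_nonneg_right ?_ (norm_nonneg _)
    refine (Finset.prod_le_prod (fun _ _ => norm_nonneg _) fun j _ => hACle j _).trans (le_of_eq ?_)
    rw [Finset.prod_const, card_erase_of_mem (mem_univ j₀), card_univ, ← pow_mul]
  have h5 : ∀ b' ∈ B, ∑ b ∈ B, ‖AC (F j₀) (b * b'⁻¹)‖ ≤ ∑ u, ‖AC (F j₀) u‖ := by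
    intro b' _
    calc ∑ b ∈ B, ‖AC (F j₀) (b * b'⁻¹)‖ ≤ ∑ b, ‖AC (F j₀) (b * b'⁻¹)‖ :=
          Finset.sum_le_sum_of_subset_of_nonneg (subset_univ _) fun _ _ _ => norm_nonneg _
      _ = ∑ u, ‖AC (F j₀) u‖ := Fintype.sum_equiv (Equiv.mulRight b'⁻¹) _ _ fun _ => rfl
  have h6 : ∑ u, ‖AC (F j₀) u‖ ≤ w * C * Fintype.card G := by
    have := AC_one (hC j₀) hW
    rwa [div_le_iff₀ hp] at this
  refine h4.trans ?_
  rw [div_le_iff₀ (by positivity), Finset.sum_comm]
  simp_rw [← Finset.mul_sum]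
  have h7 : ∑ b' ∈ B, ∑ b ∈ B, ‖AC (F j₀) (b * b'⁻¹)‖ ≤ B.card * (w * C * Fintype.card G) := by
    refine (Finset.sum_le_card_nsmul _ _ _ fun b' hb' => (h5 b' hb').trans h6).trans ?_
    rw [nsmul_eq_mul]
  calc C ^ (2 * (Fintype.card κ - 1)) * ∑ b' ∈ B, ∑ b ∈ B, ‖AC (F j₀) (b * b'⁻¹)‖
      ≤ C ^ (2 * (Fintype.card κ - 1)) * (B.card * (w * C * (M * B.card))) := by
        refine mul_le_mul_of_nonneg_left (h7.trans ?_) (by positivity)
        gcongr
    _ = M * w * C ^ (2 * (Fintype.card κ - 1) + 1) * (B.card : ℝ) ^ 2 := by ring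
    _ ≤ M * w * C ^ (2 * Fintype.card κ) * (B.card : ℝ) ^ 2 := by
        have hM0 : 0 ≤ M := by
          by_contra hneg
          push Not at hneg
          nlinarith
        gcongr
        omega

/-- the telescoping functions -/
noncomputable def Fi {n : ℕ} (F : Fin n → G → ℂ) (m : Fin n → ℂ) (i j : Fin n) (g : G) : ℂ :=
  if j < i then m j else if j = i then F j g - m j else F j g

omit [CommGroup G] [Fintype G] in
theorem prod_sub_prod {n : ℕ} (F : Fin n → G → ℂ) (m : Fin n → ℂ) (g : Fin n → G) :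
    ∏ j, F j (g j) - ∏ j, m j = ∑ i, ∏ j, Fi F m i j (g j) := by
  have h := Finset.prod_sub_ordered (univ : Finset (Fin n)) (fun j => F j (g j)) (fun j => F j (g j) - m j)
  simp only [sub_sub_cancel] at h
  rw [h, sub_sub_cancel]
  refine Finset.sum_congr rfl fun i _ => ?_
  have e1 : (univ : Finset (Fin n)) = insert i ((univ.filter fun j => j < i) ∪ univ.filter fun j => i < j) := by
    ext j
    simp only [mem_univ, mem_insert, mem_union, mem_filter, true_and, true_iff]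
    rcases lt_trichotomy j i with h | h | h
    · exact Or.inr (Or.inl h)
    · exact Or.inl h
    · exact Or.inr (Or.inr h)
  have e2 : i ∉ (univ.filter fun j => j < i) ∪ univ.filter fun j => i < j := by
    simp
  have e3 : Disjoint (univ.filter fun j => j < i) (univ.filter fun j => i < j) := by
    rw [Finset.disjoint_left]
    intro j hj hj'
    rw [mem_filter] at hj hj'
    exact absurd hj.2 (not_lt.2 hj'.2.le)
  conv_rhs => rw [e1, Finset.prod_insert e2, Finset.prod_union e3]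
  have h1 : Fi F m i i (g i) = F i (g i) - m i := by simp [Fi]
  have h2 : ∏ j ∈ univ.filter (fun j => j < i), Fi F m i j (g j) = ∏ j ∈ univ.filter (fun j => j < i), m j := by
    refine Finset.prod_congr rfl fun j hj => ?_
    rw [mem_filter] at hj
    simp [Fi, hj.2]
  have h3 : ∏ j ∈ univ.filter (fun j => i < j), Fi F m i j (g j) =
      ∏ j ∈ univ.filter (fun j => i < j), F j (g j) := by
    refine Finset.prod_congr rfl fun j hj => ?_
    rw [mem_filter] at hj
    simp [Fi, not_lt.2 hj.2.le, hj.2.ne']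
  rw [h1, h2, h3]
  ring

/-- **Almost all tuples, one average.** -/
theorem mean_one {n : ℕ} {F : Fin n → G → ℂ} {m : Fin n → ℂ} {C w : ℝ} (hC1 : 1 ≤ C)
    (hC : ∀ j g, ‖F j g‖ ≤ C) (hm : ∀ j, ‖m j‖ ≤ C) {B : Finset G} (hB : B.Nonempty) {M : ℝ}
    (hM : (Fintype.card G : ℝ) ≤ M * B.card)
    (hW : ∀ j, ∀ χ : G →* ℂ, ‖W χ fun g => F j g - m j‖ ≤ w) :
    (∑ a : Fin n → G, ‖EB F B a - ∏ j, m j‖) / (Fintype.card G : ℝ) ^ n ≤
      n * (√(M * w) * (2 * C) ^ n) := by
  classical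
  have hp := card_pos' (G := G)
  have hBc : (B.card : ℂ) ≠ 0 := by exact_mod_cast hB.card_pos.ne'
  have hBp : (0 : ℝ) < B.card := by exact_mod_cast hB.card_pos
  have hM0 : 0 ≤ M := by
    by_contra hneg
    push Not at hneg
    nlinarith
  have h1 : ∀ a : Fin n → G, EB F B a - ∏ j, m j = ∑ i, EB (Fi F m i) B a := by
    intro a
    unfold EB
    rw [← Finset.sum_div, Finset.sum_comm]
    simp_rw [← prod_sub_prod F m (fun j => _ * a j)]
    rw [Finset.sum_sub_distrib, Finset.sum_const, nsmul_eq_mul]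
    field_simp
  have hFi : ∀ i j g, ‖Fi F m i j g‖ ≤ 2 * C := by
    intro i j g
    unfold Fi
    split_ifs
    · linarith [hm j]
    · exact (norm_sub_le _ _).trans (by linarith [hC j g, hm j])
    · linarith [hC j g]
  have hcardn : (Fintype.card (Fin n → G) : ℝ) = (Fintype.card G : ℝ) ^ n := by
    rw [Fintype.card_fun, Fintype.card_fin]
    push_cast
    rfl
  have h2 : ∀ i, (∑ a : Fin n → G, ‖EB (Fi F m i) B a‖) / (Fintype.card G : ℝ) ^ n ≤
      √(M * w) * (2 * C) ^ n := by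
    intro i
    have hw : ∀ χ : G →* ℂ, ‖W χ (Fi F m i i)‖ ≤ w := by
      intro χ
      have : Fi F m i i = fun g => F i g - m i := by
        funext g
        simp [Fi]
      rw [this]
      exact hW i χ
    have hw0 : 0 ≤ w := (norm_nonneg _).trans (hw 1)
    have h3 := mean_sq (κ := Fin n) (by linarith) (hFi i) hB hM i hw
    rw [Fintype.card_fin] at h3
    have h4 : ((∑ a : Fin n → G, ‖EB (Fi F m i) B a‖) / (Fintype.card G : ℝ) ^ n) ^ 2 ≤
        (∑ a : Fin n → G, ‖EB (Fi F m i) B a‖ ^ 2) / (Fintype.card G : ℝ) ^ n := by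
      have h5 : (∑ a : Fin n → G, ‖EB (Fi F m i) B a‖) ^ 2 ≤
          (Fintype.card G : ℝ) ^ n * ∑ a : Fin n → G, ‖EB (Fi F m i) B a‖ ^ 2 := by
        have := sq_sum_le_card_mul_sum_sq (s := (univ : Finset (Fin n → G)))
          (f := fun a => ‖EB (Fi F m i) B a‖)
        rwa [card_univ, hcardn] at this
      have hpn : 0 < (Fintype.card G : ℝ) ^ n := by positivity
      rw [div_pow, div_le_div_iff₀ (by positivity) hpn]
      nlinarith
    have h5 : ((∑ a : Fin n → G, ‖EB (Fi F m i) B a‖) / (Fintype.card G : ℝ) ^ n) ^ 2 ≤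
        (√(M * w) * (2 * C) ^ n) ^ 2 := by
      refine (h4.trans h3).trans (le_of_eq ?_)
      have e : (√(M * w) * (2 * C) ^ n) ^ 2 = M * w * (2 * C) ^ (2 * n) := by
        rw [mul_pow (√(M * w)), Real.sq_sqrt (by positivity), ← pow_mul, mul_comm n 2]
      exact e.symm
    exact (abs_le_of_sq_le_sq' h5 (by positivity)).2
  calc (∑ a : Fin n → G, ‖EB F B a - ∏ j, m j‖) / (Fintype.card G : ℝ) ^ n
      ≤ (∑ a : Fin n → G, ∑ i, ‖EB (Fi F m i) B a‖) / (Fintype.card G : ℝ) ^ n := by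
        refine div_le_div_of_nonneg_right (Finset.sum_le_sum fun a _ => ?_) (by positivity)
        rw [h1]
        exact norm_sum_le _ _
    _ = ∑ i, (∑ a : Fin n → G, ‖EB (Fi F m i) B a‖) / (Fintype.card G : ℝ) ^ n := by
        rw [Finset.sum_comm, Finset.sum_div]
    _ ≤ ∑ _i : Fin n, √(M * w) * (2 * C) ^ n := Finset.sum_le_sum fun i _ => h2 i
    _ = n * (√(M * w) * (2 * C) ^ n) := by
        rw [Finset.sum_const, card_univ, Fintype.card_fin, nsmul_eq_mul]

/-- **Almost all tuples: the number of exceptions.** -/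
theorem count_one {n : ℕ} {F : Fin n → G → ℂ} {m : Fin n → ℂ} {C w : ℝ} (hC1 : 1 ≤ C)
    (hC : ∀ j g, ‖F j g‖ ≤ C) (hm : ∀ j, ‖m j‖ ≤ C) {B : Finset G} (hB : B.Nonempty) {M : ℝ}
    (hM : (Fintype.card G : ℝ) ≤ M * B.card)
    (hW : ∀ j, ∀ χ : G →* ℂ, ‖W χ fun g => F j g - m j‖ ≤ w) {ε : ℝ} (hε : 0 < ε)
    [DecidablePred fun a : Fin n → G => ε < ‖EB F B a - ∏ j, m j‖] :
    (((univ : Finset (Fin n → G)).filter fun a => ε < ‖EB F B a - ∏ j, m j‖).card : ℝ) ≤
      (n * (√(M * w) * (2 * C) ^ n) / ε) * (Fintype.card G : ℝ) ^ n := by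
  have hp := card_pos' (G := G)
  have h1 := mean_one hC1 hC hm hB hM hW
  have hpn : 0 < (Fintype.card G : ℝ) ^ n := by positivity
  rw [div_le_iff₀ hpn] at h1
  have h2 : (((univ : Finset (Fin n → G)).filter fun a => ε < ‖EB F B a - ∏ j, m j‖).card : ℝ) * ε ≤
      ∑ a : Fin n → G, ‖EB F B a - ∏ j, m j‖ := by
    rw [← nsmul_eq_mul]
    calc ((univ : Finset (Fin n → G)).filter fun a => ε < ‖EB F B a - ∏ j, m j‖).card • ε
        ≤ ∑ a ∈ (univ : Finset (Fin n → G)).filter (fun a => ε < ‖EB F B a - ∏ j, m j‖),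
          ‖EB F B a - ∏ j, m j‖ :=
          Finset.card_nsmul_le_sum _ _ _ fun a ha => (mem_filter.1 ha).2.le
      _ ≤ ∑ a : Fin n → G, ‖EB F B a - ∏ j, m j‖ :=
          Finset.sum_le_sum_of_subset_of_nonneg (subset_univ _) fun _ _ _ => norm_nonneg _
  rw [div_mul_eq_mul_div, le_div_iff₀ hε]
  exact h2.trans h1

end Pool.Agent.Q12.CM
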