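import Pool.Agent.Q12.CM.Small

/-! # Counting for small subgroups of products -/

set_option autoImplicit false

open Finset MeasureTheory Filter Topology
open scoped ComplexConjugate BoundedContinuousFunction

namespace Pool.Agent.Q12.CM

section

variable {n : ℕ} {G : Fin n → Type} [∀ j, CommGroup (G j)] [∀ j, Fintype (G j)]

/-- **The mean square over all tuples, from the autocorrelation.** -/
theorem K_mean_sq {F : ∀ j, G j → ℂ} {C κ : ℝ} (hC1 : 1 ≤ C)
    (hC : ∀ j g, ‖F j g‖ ≤ C) {B : Finset (∀ j, G j)} (hB : B.Nonempty) (j₀ : Fin n)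
    (h5 : ∀ b' ∈ B, ∑ b ∈ B, ‖AC (F j₀) (b j₀ * (b' j₀)⁻¹)‖ ≤ B.card * κ) :
    ∑ a : ∀ j, G j, ‖PB F B a‖ ^ 2 ≤ κ * C ^ (2 * n) * ∏ j, (Fintype.card (G j) : ℝ) := by
  classical
  have hp : ∀ j, (0 : ℝ) < Fintype.card (G j) := fun j => card_pos'
  have hc : ∀ j, (Fintype.card (G j) : ℂ) ≠ 0 := fun j => card_ne
  have hC0 : 0 ≤ C := by linarith
  have hBp : (0 : ℝ) < B.card := by exact_mod_cast hB.card_pos
  have hκ0 : 0 ≤ κ := by
    obtain ⟨b', hb'⟩ := hB
    have h1 := h5 b' hb'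
    have h2 : (0 : ℝ) ≤ ∑ b ∈ B, ‖AC (F j₀) (b j₀ * (b' j₀)⁻¹)‖ :=
      Finset.sum_nonneg fun _ _ => norm_nonneg _
    by_contra hneg
    push Not at hneg
    have h3 := mul_neg_of_pos_of_neg hBp hneg
    linarith
  have hACle : ∀ j u, ‖AC (F j) u‖ ≤ C ^ 2 := by
    intro j u
    unfold AC
    rw [norm_div, Complex.norm_natCast, div_le_iff₀ (hp j)]
    refine (norm_sum_le _ _).trans ?_
    calc ∑ g, ‖F j (u * g) * conj (F j g)‖ ≤ ∑ _g : G j, C ^ 2 := by
          refine Finset.sum_le_sum fun g _ => ?_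
          rw [norm_mul, Complex.norm_conj, sq]
          exact mul_le_mul (hC _ _) (hC _ _) (norm_nonneg _) hC0
      _ = C ^ 2 * Fintype.card (G j) := by rw [Finset.sum_const, card_univ, nsmul_eq_mul, mul_comm]
  set D : ℝ := ∏ j, (Fintype.card (G j) : ℝ) with hD
  have hDp : 0 < D := Finset.prod_pos fun j _ => hp j
  have hDc : (D : ℂ) = ∏ j, (Fintype.card (G j) : ℂ) := by
    rw [hD]
    push_cast
    rfl
  -- the expansion
  have key : ((∑ a : ∀ j, G j, ‖PB F B a‖ ^ 2 : ℝ) : ℂ) =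
      (∑ b ∈ B, ∑ b' ∈ B, ∏ j, AC (F j) (b j * (b' j)⁻¹)) * D / (B.card : ℂ) ^ 2 := by
    push_cast
    have h1 : ∀ a : ∀ j, G j, ((‖PB F B a‖ : ℂ)) ^ 2 =
        (∑ b ∈ B, ∑ b' ∈ B, ∏ j, (F j (b j * a j) * conj (F j (b' j * a j)))) / (B.card : ℂ) ^ 2 := by
      intro a
      rw [← Complex.mul_conj', PB, map_div₀, map_sum, Complex.conj_natCast, div_mul_div_comm, ← sq,
        Finset.sum_mul_sum]
      congr 1
      refine Finset.sum_congr rfl fun b _ => Finset.sum_congr rfl fun b' _ => ?_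
      rw [map_prod, ← Finset.prod_mul_distrib]
    simp_rw [h1]
    rw [← Finset.sum_div]
    congr 1
    rw [Finset.sum_comm, Finset.sum_mul]
    refine Finset.sum_congr rfl fun b _ => ?_
    rw [Finset.sum_comm, Finset.sum_mul]
    refine Finset.sum_congr rfl fun b' _ => ?_
    have h2 := Finset.prod_univ_sum (fun j => (univ : Finset (G j)))
      (fun j x => F j (b j * x) * conj (F j (b' j * x)))
    rw [Fintype.piFinset_univ] at h2
    rw [← h2]
    have h3 : ∀ j, ∑ x, F j (b j * x) * conj (F j (b' j * x)) =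
        AC (F j) (b j * (b' j)⁻¹) * (Fintype.card (G j) : ℂ) := by
      intro j
      unfold AC
      rw [div_mul_cancel₀ _ (hc j)]
      refine Fintype.sum_equiv (Equiv.mulLeft (b' j)) _ _ fun x => ?_
      simp only [Equiv.coe_mulLeft]
      rw [show b j * (b' j)⁻¹ * (b' j * x) = b j * x by group]
    simp_rw [h3]
    rw [Finset.prod_mul_distrib, hDc]
  have hnn : 0 ≤ ∑ a : ∀ j, G j, ‖PB F B a‖ ^ 2 := by positivity
  have h4 : ∑ a : ∀ j, G j, ‖PB F B a‖ ^ 2 ≤
      (∑ b ∈ B, ∑ b' ∈ B, C ^ (2 * (n - 1)) * ‖AC (F j₀) (b j₀ * (b' j₀)⁻¹)‖) * D / (B.card : ℝ) ^ 2 := by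
    rw [← Real.norm_of_nonneg hnn, ← Complex.norm_real, key, norm_div, norm_mul, norm_pow,
      Complex.norm_natCast, Complex.norm_real, Real.norm_of_nonneg hDp.le]
    refine div_le_div_of_nonneg_right (mul_le_mul_of_nonneg_right ?_ hDp.le) (by positivity)
    refine (norm_sum_le _ _).trans (Finset.sum_le_sum fun b _ => ?_)
    refine (norm_sum_le _ _).trans (Finset.sum_le_sum fun b' _ => ?_)
    rw [norm_prod, ← Finset.mul_prod_erase univ _ (mem_univ j₀), mul_comm]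
    refine mul_le_mul_of_nonneg_right ?_ (norm_nonneg _)
    refine (Finset.prod_le_prod (fun _ _ => norm_nonneg _) fun j _ => hACle j _).trans (le_of_eq ?_)
    rw [Finset.prod_const, card_erase_of_mem (mem_univ j₀), card_univ, Fintype.card_fin, ← pow_mul]
  refine h4.trans ?_
  rw [div_le_iff₀ (by positivity), Finset.sum_comm]
  simp_rw [← Finset.mul_sum]
  have h7 : ∑ b' ∈ B, ∑ b ∈ B, ‖AC (F j₀) (b j₀ * (b' j₀)⁻¹)‖ ≤ B.card * (B.card * κ) := by
    refine (Finset.sum_le_card_nsmul _ _ _ fun b' hb' => h5 b' hb').trans ?_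
    rw [nsmul_eq_mul]
  calc C ^ (2 * (n - 1)) * (∑ b' ∈ B, ∑ b ∈ B, ‖AC (F j₀) (b j₀ * (b' j₀)⁻¹)‖) * D
      ≤ C ^ (2 * (n - 1)) * (B.card * (B.card * κ)) * D := by gcongr
    _ = κ * C ^ (2 * (n - 1)) * D * (B.card : ℝ) ^ 2 := by ring
    _ ≤ κ * C ^ (2 * n) * D * (B.card : ℝ) ^ 2 := by
        have h8 : C ^ (2 * (n - 1)) ≤ C ^ (2 * n) := pow_le_pow_right₀ hC1 (by omega)
        gcongr

/-- **The mean square of the error.** -/
theorem K_mean_one {F : ∀ j, G j → ℂ} {m : Fin n → ℂ} {C κ : ℝ} (hC1 : 1 ≤ C)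
    (hC : ∀ j g, ‖F j g‖ ≤ C) (hm : ∀ j, ‖m j‖ ≤ C) {B : Finset (∀ j, G j)} (hB : B.Nonempty)
    (h5 : ∀ j, ∀ b' ∈ B, ∑ b ∈ B, ‖AC (fun g => F j g - m j) (b j * (b' j)⁻¹)‖ ≤ B.card * κ) :
    ∑ a : ∀ j, G j, ‖PB F B a - ∏ j, m j‖ ^ 2 ≤
      n ^ 2 * (κ * (2 * C) ^ (2 * n)) * ∏ j, (Fintype.card (G j) : ℝ) := by
  classical
  have hBc : (B.card : ℂ) ≠ 0 := by exact_mod_cast hB.card_pos.ne'
  have h1 : ∀ a, PB F B a - ∏ j, m j = ∑ i, PB (Fd F m i) B a := by
    intro a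
    unfold PB
    rw [← Finset.sum_div, div_sub' hBc]
    congr 1
    rw [Finset.sum_comm, show (B.card : ℂ) * ∏ j, m j = ∑ _b ∈ B, ∏ j, m j by
      rw [Finset.sum_const, nsmul_eq_mul], ← Finset.sum_sub_distrib]
    refine Finset.sum_congr rfl fun b _ => ?_
    exact prod_sub_prod_d F m fun j => b j * a j
  have h2 : ∀ a, ‖PB F B a - ∏ j, m j‖ ^ 2 ≤ n * ∑ i, ‖PB (Fd F m i) B a‖ ^ 2 := by
    intro a
    rw [h1]
    refine (pow_le_pow_left₀ (norm_nonneg _) (norm_sum_le _ _) 2).trans ?_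
    have := sq_sum_le_card_mul_sum_sq (s := (univ : Finset (Fin n))) (f := fun i => ‖PB (Fd F m i) B a‖)
    rwa [card_univ, Fintype.card_fin] at this
  have h3 : ∀ i, ∑ a : ∀ j, G j, ‖PB (Fd F m i) B a‖ ^ 2 ≤
      κ * (2 * C) ^ (2 * n) * ∏ j, (Fintype.card (G j) : ℝ) := by
    intro i
    have hFi : Fd F m i i = fun g => F i g - m i := by
      funext g
      simp [Fd]
    refine K_mean_sq (by linarith) (fun j g => ?_) hB i ?_
    · unfold Fd
      split_ifs
      · linarith [hm j]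
      · exact (norm_sub_le _ _).trans (by linarith [hm j, hC j g])
      · linarith [hC j g]
    · rw [hFi]
      exact h5 i
  calc ∑ a : ∀ j, G j, ‖PB F B a - ∏ j, m j‖ ^ 2 ≤ ∑ a : ∀ j, G j, n * ∑ i, ‖PB (Fd F m i) B a‖ ^ 2 :=
        Finset.sum_le_sum fun a _ => h2 a
    _ = n * ∑ i, ∑ a : ∀ j, G j, ‖PB (Fd F m i) B a‖ ^ 2 := by
        rw [← Finset.mul_sum, Finset.sum_comm]
    _ ≤ n * ∑ _i : Fin n, κ * (2 * C) ^ (2 * n) * ∏ j, (Fintype.card (G j) : ℝ) := by
        gcongr with i _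
        exact h3 i
    _ = n ^ 2 * (κ * (2 * C) ^ (2 * n)) * ∏ j, (Fintype.card (G j) : ℝ) := by
        rw [Finset.sum_const, card_univ, Fintype.card_fin, nsmul_eq_mul]
        ring

open Classical in
/-- the fibres of the projections of a subgroup -/
theorem fibre_le' (B : Subgroup (∀ j, G j)) (j : Fin n) (u : G j) :
    (((((univ : Finset (∀ j, G j)).filter fun b => b ∈ B).filter fun b => b j = u).card : ℝ)) *
      Fintype.card (B.map (Pi.evalMonoidHom G j)) ≤
      ((univ : Finset (∀ j, G j)).filter fun b => b ∈ B).card := by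
  set φ : B →* G j := (Pi.evalMonoidHom G j).comp B.subtype with hφ
  have hrange : φ.range = B.map (Pi.evalMonoidHom G j) := by
    rw [hφ, MonoidHom.range_comp, Subgroup.range_subtype]
  have h1 : Nat.card φ.range * Nat.card φ.ker = Nat.card B := by
    rw [← Subgroup.index_ker, Subgroup.index_mul_card]
  have h2 : Fintype.card (B.map (Pi.evalMonoidHom G j)) = Nat.card φ.range := by
    rw [← Nat.card_eq_fintype_card, hrange]
  have hcard : Nat.card B = ((univ : Finset (∀ j, G j)).filter fun b => b ∈ B).card := by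
    rw [Nat.card_eq_fintype_card, ← Fintype.card_subtype]
  have h3 : (((univ : Finset (∀ j, G j)).filter fun b => b ∈ B).filter fun b => b j = u).card ≤
      Nat.card φ.ker := by
    rcases Finset.eq_empty_or_nonempty
      (((univ : Finset (∀ j, G j)).filter fun b => b ∈ B).filter fun b => b j = u) with h | ⟨b₀, hb₀⟩
    · rw [h, card_empty]
      exact Nat.zero_le _
    · rw [mem_filter, mem_filter] at hb₀
      have hmem : ∀ b : {b // b ∈ (((univ : Finset (∀ j, G j)).filter fun b => b ∈ B).filter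
          fun b => b j = u)}, b.1 * b₀⁻¹ ∈ B := fun b => by
        have := b.2
        rw [mem_filter, mem_filter] at this
        exact B.mul_mem this.1.2 (B.inv_mem hb₀.1.2)
      have hker : ∀ b : {b // b ∈ (((univ : Finset (∀ j, G j)).filter fun b => b ∈ B).filter
          fun b => b j = u)}, (⟨b.1 * b₀⁻¹, hmem b⟩ : B) ∈ φ.ker := fun b => by
        have := b.2
        rw [mem_filter, mem_filter] at this
        rw [MonoidHom.mem_ker, hφ]
        change (b.1 * b₀⁻¹) j = 1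
        rw [Pi.mul_apply, Pi.inv_apply, this.2, hb₀.2, mul_inv_cancel]
      rw [← Fintype.card_coe, ← Nat.card_eq_fintype_card]
      refine Nat.card_le_card_of_injective (fun b => (⟨⟨b.1 * b₀⁻¹, hmem b⟩, hker b⟩ : φ.ker)) ?_
      intro b b' h
      have h4 : b.1 * b₀⁻¹ = b'.1 * b₀⁻¹ := congrArg (fun z : φ.ker => z.1.1) h
      exact Subtype.ext (mul_right_cancel h4)
  have h4 : (((univ : Finset (∀ j, G j)).filter fun b => b ∈ B).filter fun b => b j = u).card *
      Fintype.card (B.map (Pi.evalMonoidHom G j)) ≤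
      ((univ : Finset (∀ j, G j)).filter fun b => b ∈ B).card := by
    rw [← hcard, ← h1, h2, mul_comm]
    gcongr
  exact_mod_cast h4

open Classical in
/-- sums over a subgroup of functions of one coordinate -/
theorem proj_sum (B : Subgroup (∀ j, G j)) (j : Fin n) {φ : G j → ℝ} (hφ : ∀ g, 0 ≤ φ g)
    {c₀ : G j} (hc₀ : c₀ ∈ B.map (Pi.evalMonoidHom G j)) :
    ∑ b ∈ (univ : Finset (∀ j, G j)).filter (fun b => b ∈ B), φ (b j * c₀) ≤
      ((univ : Finset (∀ j, G j)).filter fun b => b ∈ B).card *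
        ((∑ h : B.map (Pi.evalMonoidHom G j), φ h) / Fintype.card (B.map (Pi.evalMonoidHom G j))) := by
  set B' : Finset (∀ j, G j) := (univ : Finset (∀ j, G j)).filter fun b => b ∈ B with hB'
  set H := B.map (Pi.evalMonoidHom G j) with hH
  have hpH := card_pos' (G := H)
  have e1 : ∑ b ∈ B', φ (b j * c₀) = ∑ h : H, ∑ b ∈ B'.filter (fun b => b j = (h : G j)),
      φ (b j * c₀) := by
    rw [← Finset.sum_biUnion]
    · refine Finset.sum_congr ?_ fun _ _ => rfl
      ext b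
      rw [mem_biUnion]
      constructor
      · intro hb
        have hbB : b ∈ B := (mem_filter.1 hb).2
        exact ⟨⟨b j, Subgroup.mem_map_of_mem (Pi.evalMonoidHom G j) hbB⟩, mem_univ _,
          mem_filter.2 ⟨hb, rfl⟩⟩
      · rintro ⟨h, _, hb⟩
        exact (mem_filter.1 hb).1
    · intro h _ h' _ hne
      rw [Function.onFun, Finset.disjoint_left]
      intro b hb hb'
      exact hne (Subtype.ext ((mem_filter.1 hb).2.symm.trans (mem_filter.1 hb').2))
  have e2 : ∀ h : H, ∑ b ∈ B'.filter (fun b => b j = (h : G j)), φ (b j * c₀) =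
      ((B'.filter fun b => b j = (h : G j)).card : ℝ) * φ ((h : G j) * c₀) := by
    intro h
    have : ∑ b ∈ B'.filter (fun b => b j = (h : G j)), φ (b j * c₀) =
        ∑ _b ∈ B'.filter (fun b => b j = (h : G j)), φ ((h : G j) * c₀) := by
      refine Finset.sum_congr rfl fun b hb => ?_
      rw [(mem_filter.1 hb).2]
    rw [this, Finset.sum_const, nsmul_eq_mul]
  rw [e1, ← mul_div_assoc, le_div_iff₀ hpH, Finset.sum_mul, Finset.mul_sum]
  calc ∑ h : H, (∑ b ∈ B'.filter (fun b => b j = (h : G j)), φ (b j * c₀)) * Fintype.card H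
      = ∑ h : H, (((B'.filter fun b => b j = (h : G j)).card : ℝ) * Fintype.card H) *
          φ ((h : G j) * c₀) := by
        refine Finset.sum_congr rfl fun h _ => ?_
        rw [e2]
        ring
    _ ≤ ∑ h : H, (B'.card : ℝ) * φ ((h : G j) * c₀) :=
        Finset.sum_le_sum fun h _ => mul_le_mul_of_nonneg_right (fibre_le' B j h) (hφ _)
    _ = ∑ h : H, (B'.card : ℝ) * φ h :=
        Fintype.sum_equiv (Equiv.mulRight (⟨c₀, hc₀⟩ : H)) _ _ fun h => rfl

open Classical in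
/-- **Almost all tuples, for subgroups with small autocorrelations on their projections.** -/
theorem K_count {F : ∀ j, G j → ℂ} {m : Fin n → ℂ} {C κ : ℝ} (hC1 : 1 ≤ C)
    (hC : ∀ j g, ‖F j g‖ ≤ C) (hm : ∀ j, ‖m j‖ ≤ C) (B : Subgroup (∀ j, G j))
    (hκ : ∀ j, (∑ h : B.map (Pi.evalMonoidHom G j), ‖AC (fun g => F j g - m j) (h : G j)‖) /
      Fintype.card (B.map (Pi.evalMonoidHom G j)) ≤ κ) {ε : ℝ} (hε : 0 < ε)
    (y : ∀ j, G j) (s : Fin n → ℤˣ) :
    ({a : ∀ j, G j | ε < ‖(∑ᶠ b : B, ∏ j, F j (y j * b.1 j * a j ^ (s j : ℤ))) / Nat.card B -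
      ∏ j, m j‖}.ncard : ℝ) ≤
      n ^ 2 * (κ * (2 * C) ^ (2 * n)) / ε ^ 2 * ∏ j, (Fintype.card (G j) : ℝ) := by
  set B' : Finset (∀ j, G j) := univ.filter fun b => b ∈ B with hB'
  have hBne : B'.Nonempty := ⟨1, by simp [hB', B.one_mem]⟩
  have hcard : Nat.card B = B'.card := by
    rw [Nat.card_eq_fintype_card, ← Fintype.card_subtype]
  have h5 : ∀ j, ∀ b' ∈ B', ∑ b ∈ B', ‖AC (fun g => F j g - m j) (b j * (b' j)⁻¹)‖ ≤ B'.card * κ := by
    intro j b' hb'
    have hb'B : b' ∈ B := (mem_filter.1 hb').2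
    have hc₀ : (b' j)⁻¹ ∈ B.map (Pi.evalMonoidHom G j) :=
      Subgroup.inv_mem _ (Subgroup.mem_map_of_mem (Pi.evalMonoidHom G j) hb'B)
    refine (proj_sum B j (φ := fun g => ‖AC (fun g => F j g - m j) g‖) (fun _ => norm_nonneg _)
      hc₀).trans ?_
    exact mul_le_mul_of_nonneg_left (hκ j) (Nat.cast_nonneg _)
  have h1 := K_mean_one hC1 hC hm hBne h5
  have e : ∀ a : ∀ j, G j, (∑ᶠ b : B, ∏ j, F j (y j * b.1 j * a j ^ (s j : ℤ))) / Nat.card B =
      PB F B' fun j => y j * a j ^ (s j : ℤ) := by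
    intro a
    unfold PB
    rw [finsum_eq_sum_of_fintype, hcard]
    congr 1
    have h2 : ∀ b : B, ∏ j, F j (y j * b.1 j * a j ^ (s j : ℤ)) =
        ∏ j, F j (b.1 j * (y j * a j ^ (s j : ℤ))) := fun b =>
      Finset.prod_congr rfl fun j _ => by rw [mul_comm (y j), mul_assoc]
    rw [Finset.sum_congr rfl fun b _ => h2 b]
    exact (Finset.sum_subtype B' (fun x => by simp [hB'])
      fun b => ∏ j, F j (b j * (y j * a j ^ (s j : ℤ)))).symm
  simp_rw [e]
  set T : Finset (∀ j, G j) := univ.filter fun a => ε < ‖PB F B' a - ∏ j, m j‖ with hT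
  have hTc : (T.card : ℝ) * ε ^ 2 ≤ n ^ 2 * (κ * (2 * C) ^ (2 * n)) *
      ∏ j, (Fintype.card (G j) : ℝ) := by
    refine le_trans ?_ h1
    calc (T.card : ℝ) * ε ^ 2 = ∑ _a ∈ T, ε ^ 2 := by rw [Finset.sum_const, nsmul_eq_mul]
      _ ≤ ∑ a ∈ T, ‖PB F B' a - ∏ j, m j‖ ^ 2 := by
          refine Finset.sum_le_sum fun a ha => ?_
          rw [hT, mem_filter] at ha
          exact pow_le_pow_left₀ hε.le ha.2.le 2
      _ ≤ ∑ a : ∀ j, G j, ‖PB F B' a - ∏ j, m j‖ ^ 2 :=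
          Finset.sum_le_sum_of_subset_of_nonneg (subset_univ _) fun _ _ _ => by positivity
  have hinj : {a : ∀ j, G j | ε < ‖(PB F B' fun j => y j * a j ^ (s j : ℤ)) - ∏ j, m j‖}.ncard ≤
      T.card := by
    rw [← Set.ncard_coe_finset]
    refine Set.ncard_le_ncard_of_injOn (fun a : ∀ j, G j => fun j => y j * a j ^ (s j : ℤ)) ?_ ?_
      (Set.toFinite _)
    · intro a ha
      rw [Set.mem_ofPred_eq] at ha
      rw [mem_coe, hT, mem_filter]
      exact ⟨mem_univ _, ha⟩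
    · intro a _ a' _ h
      funext j
      have h2 : a j ^ (s j : ℤ) = a' j ^ (s j : ℤ) := mul_left_cancel (congrFun h j)
      rcases Int.units_eq_one_or (s j) with h3 | h3
      · rw [h3] at h2
        simpa using h2
      · rw [h3] at h2
        simpa using h2
  have hinj' : ({a : ∀ j, G j | ε < ‖(PB F B' fun j => y j * a j ^ (s j : ℤ)) - ∏ j, m j‖}.ncard : ℝ) ≤
      T.card := by exact_mod_cast hinj
  refine hinj'.trans ?_
  rw [div_mul_eq_mul_div, le_div_iff₀ (by positivity)]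
  exact hTc

end

section

variable {Y : Type} [TopologicalSpace Y] [MeasurableSpace Y] [BorelSpace Y]

open Classical in
/-- **Small autocorrelations on all subgroups which contain a power of `c`.** -/
theorem small_of_mixing {S : Type} [TopologicalSpace S] {μ : Measure Y} [IsProbabilityMeasure μ]
    {a : Y → Y} (ha : Continuous a) (hμ : MeasurePreserving a μ μ) (hmix : WeakMix μ a)
    {proj : Y → S} (hproj : Continuous proj) {G : ℕ → Type} [∀ i, CommGroup (G i)]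
    [∀ i, Fintype (G i)] {x : ∀ i, G i → S} {Ω : ℕ → Type} [∀ i, MeasurableSpace (Ω i)]
    {P : ∀ i, Measure (Ω i)} [∀ i, IsProbabilityMeasure (P i)] {X : ∀ i, Ω i → Y}
    {t : ∀ i, Ω i → Ω i} {q : ∀ i, Ω i → G i} {c : ∀ i, G i}
    (hL : ∀ i, Lifts a proj (x i) (P i) (X i) (t i) (q i) (c i))
    (hE : ∀ F : Y →ᵇ ℂ, Tendsto (fun i => ∫ ω, F (X i ω) ∂(P i)) atTop (𝓝 (∫ y, F y ∂μ)))
    (f : S →ᵇ ℂ) (R : ℕ) {δ : ℝ} (hδ : 0 < δ) :
    ∀ᶠ i in atTop, ∀ H : Subgroup (G i), (∃ r, 1 ≤ r ∧ r ≤ R ∧ c i ^ r ∈ H) →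
      (∑ h : H, ‖AC (fun g => f (x i g) - ∫ y, f (proj y) ∂μ) (h : G i)‖) / Fintype.card H ≤
        √δ * (‖f‖ + ‖∫ y, f (proj y) ∂μ‖) := by
  set m := ∫ y, f (proj y) ∂μ with hm
  set F : Y →ᵇ ℂ := f.compContinuous ⟨proj, hproj⟩ - BoundedContinuousFunction.const Y m with hFdef
  have hF : ∀ y, F y = f (proj y) - m := fun y => rfl
  have hF0 : ∫ y, F y ∂μ = 0 := by
    simp only [hF]
    rw [integral_sub _ (integrable_const _), ← hm, integral_const, probReal_univ, one_smul, sub_self]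
    exact integrable_bcf μ (f.continuous.comp hproj) fun y => f.norm_coe_le_norm _
  have hr : ∀ r ∈ Finset.Icc 1 R, ∀ᶠ i in atTop, ∀ H : Subgroup (G i), c i ^ r ∈ H →
      ∀ ψ : H →* ℂ, (∑ y : G i, ‖W ψ fun h : H => f (x i (y * h)) - m‖ ^ 2) / Fintype.card (G i) ≤ δ := by
    intro r hr
    rw [Finset.mem_Icc] at hr
    obtain ⟨k, hk0, hk⟩ := corr_small (ha.iterate r) (hμ.iterate r) (hmix.pow hr.1) F hF0 (half_pos hδ)
    have hlim : Tendsto (fun i => (∑ j ∈ range k, ∑ l ∈ range k,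
        ‖∫ ω, F ((a^[r])^[j] (X i ω)) * conj (F ((a^[r])^[l] (X i ω))) ∂(P i)‖) / (k : ℝ) ^ 2) atTop
        (𝓝 ((∑ j ∈ range k, ∑ l ∈ range k,
        ‖∫ y, F ((a^[r])^[j] y) * conj (F ((a^[r])^[l] y)) ∂μ‖) / (k : ℝ) ^ 2)) := by
      refine Tendsto.div_const (tendsto_finset_sum _ fun j _ => tendsto_finset_sum _ fun l _ => ?_) _
      refine Tendsto.norm ?_
      set K : Y →ᵇ ℂ := (F.compContinuous ⟨(a^[r])^[j], (ha.iterate r).iterate j⟩) *
        star (F.compContinuous ⟨(a^[r])^[l], (ha.iterate r).iterate l⟩) with hK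
      exact hE K
    filter_upwards [hlim.eventually_lt_const (lt_of_le_of_lt hk (half_lt_self hδ))] with i hi H hc ψ
    exact (((hL i).pow r).coset_sq_le (ha.iterate r) (fun s => f s - m) F hF H hc ψ k hk0).trans hi.le
  have hall := (Filter.eventually_all_finset (Finset.Icc 1 R)).2 hr
  filter_upwards [hall] with i hi H hH
  obtain ⟨r, hr1, hr2, hc⟩ := hH
  exact AC_sub H (F := fun g => f (x i g) - m)
    (fun g => (norm_sub_le _ _).trans (add_le_add (f.norm_coe_le_norm _) le_rfl))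
    (hi r (Finset.mem_Icc.2 ⟨hr1, hr2⟩) H hc)

end

end Pool.Agent.Q12.CM
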