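import Pool.Agent.Q12.CM.Two

/-! # Twisted equidistribution from mixing -/

set_option autoImplicit false

open Finset MeasureTheory Filter Topology
open scoped ComplexConjugate BoundedContinuousFunction

namespace Pool.Agent.Q12.CM

/-- the sum of a function of the distance -/
theorem sum_dist_le (γ : ℕ → ℝ) (hγ : ∀ r, 0 ≤ γ r) (k : ℕ) (c : ℕ → ℕ → ℝ)
    (h1 : ∀ j l, c (l + j) l = γ j) (h2 : ∀ j l, c l (l + j) = γ j) :
    ∑ j ∈ range k, ∑ l ∈ range k, c j l ≤ 2 * k * ∑ r ∈ range k, γ r := by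
  have hj : ∀ j ∈ range k, ∑ l ∈ range k, c j l ≤ 2 * ∑ r ∈ range k, γ r := by
    intro j hj
    rw [mem_range] at hj
    have hA : ∑ l ∈ (range k).filter (fun l => l ≤ j), c j l ≤ ∑ r ∈ range k, γ r := by
      have e : ∑ l ∈ (range k).filter (fun l => l ≤ j), c j l =
          ∑ l ∈ (range k).filter (fun l => l ≤ j), γ (j - l) := by
        refine sum_congr rfl fun l hl => ?_
        rw [mem_filter] at hl
        have := h1 (j - l) l
        rwa [Nat.add_sub_cancel' hl.2] at this
      rw [e, ← sum_image (f := γ) (g := fun l => j - l)]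
      · refine sum_le_sum_of_subset_of_nonneg ?_ fun r _ _ => hγ r
        intro r hr
        rw [mem_image] at hr
        obtain ⟨l, hl, rfl⟩ := hr
        rw [mem_range]
        omega
      · intro l hl l' hl' he
        have a1 := (mem_filter.1 (mem_coe.1 hl)).2
        have a2 := (mem_filter.1 (mem_coe.1 hl')).2
        simp only at he
        omega
    have hB : ∑ l ∈ (range k).filter (fun l => ¬ l ≤ j), c j l ≤ ∑ r ∈ range k, γ r := by
      have e : ∑ l ∈ (range k).filter (fun l => ¬ l ≤ j), c j l =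
          ∑ l ∈ (range k).filter (fun l => ¬ l ≤ j), γ (l - j) := by
        refine sum_congr rfl fun l hl => ?_
        rw [mem_filter] at hl
        have hl2 : j ≤ l := by omega
        have := h2 (l - j) j
        rwa [Nat.add_sub_cancel' hl2] at this
      rw [e, ← sum_image (f := γ) (g := fun l => l - j)]
      · refine sum_le_sum_of_subset_of_nonneg ?_ fun r _ _ => hγ r
        intro r hr
        rw [mem_image] at hr
        obtain ⟨l, hl, rfl⟩ := hr
        rw [mem_filter, mem_range] at hl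
        rw [mem_range]
        omega
      · intro l hl l' hl' he
        have a1 := (mem_filter.1 (mem_coe.1 hl)).2
        have a2 := (mem_filter.1 (mem_coe.1 hl')).2
        simp only at he
        omega
    rw [← sum_filter_add_sum_filter_not (range k) (fun l => l ≤ j)]
    linarith
  calc ∑ j ∈ range k, ∑ l ∈ range k, c j l ≤ ∑ j ∈ range k, 2 * ∑ r ∈ range k, γ r :=
        sum_le_sum hj
    _ = 2 * k * ∑ r ∈ range k, γ r := by
        rw [sum_const, card_range, nsmul_eq_mul]
        ring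

/-- `a` is weakly mixing for `μ`, tested on bounded continuous functions. -/
def WeakMix {Y : Type} [TopologicalSpace Y] [MeasurableSpace Y] (μ : Measure Y) (a : Y → Y) : Prop :=
  ∀ F : Y →ᵇ ℂ, Tendsto (fun k : ℕ => (∑ l ∈ range k,
    ‖∫ y, F (a^[l] y) * conj (F y) ∂μ - (∫ y, F y ∂μ) * conj (∫ y, F y ∂μ)‖) / k) atTop (𝓝 0)

variable {Y : Type} [TopologicalSpace Y] [MeasurableSpace Y] [BorelSpace Y]

lemma integrable_bcf (μ : Measure Y) [IsProbabilityMeasure μ] {F : Y → ℂ} (hF : Continuous F)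
    {C : ℝ} (hC : ∀ y, ‖F y‖ ≤ C) : Integrable F μ :=
  Integrable.of_bound hF.measurable.aestronglyMeasurable C (Eventually.of_forall hC)

/-- the correlations of a function with mean value zero -/
theorem corr_small {μ : Measure Y} [IsProbabilityMeasure μ] {a : Y → Y} (ha : Continuous a)
    (hμ : MeasurePreserving a μ μ) (hmix : WeakMix μ a) (F : Y →ᵇ ℂ) (hF : ∫ y, F y ∂μ = 0) {ε : ℝ}
    (hε : 0 < ε) :
    ∃ k : ℕ, 0 < k ∧ (∑ j ∈ range k, ∑ l ∈ range k,
      ‖∫ y, F (a^[j] y) * conj (F (a^[l] y)) ∂μ‖) / (k : ℝ) ^ 2 ≤ ε := by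
  have h1 := hmix F
  rw [hF] at h1
  simp only [zero_mul, sub_zero] at h1
  have h2 := (h1.eventually_lt_const (half_pos hε)).and (eventually_gt_atTop 0)
  obtain ⟨k, hk, hk0⟩ := h2.exists
  refine ⟨k, hk0, ?_⟩
  have hcont : ∀ j l : ℕ, Continuous fun y => F (a^[j] y) * conj (F (a^[l] y)) := fun j l =>
    (F.continuous.comp (ha.iterate j)).mul (Complex.continuous_conj.comp (F.continuous.comp (ha.iterate l)))
  have hshift : ∀ j l r : ℕ, ∫ y, F (a^[j + r] y) * conj (F (a^[l + r] y)) ∂μ =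
      ∫ y, F (a^[j] y) * conj (F (a^[l] y)) ∂μ := by
    intro j l r
    have e := (hμ.iterate r).map_eq
    have h3 : ∫ y, F (a^[j] y) * conj (F (a^[l] y)) ∂(μ.map a^[r]) =
        ∫ y, F (a^[j] (a^[r] y)) * conj (F (a^[l] (a^[r] y))) ∂μ :=
      integral_map (hμ.iterate r).measurable.aemeasurable (hcont j l).measurable.aestronglyMeasurable
    rw [e] at h3
    rw [h3]
    simp only [Function.iterate_add_apply]
  have hsum := sum_dist_le (fun l => ‖∫ y, F (a^[l] y) * conj (F y) ∂μ‖) (fun _ => norm_nonneg _) k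
    (fun j l => ‖∫ y, F (a^[j] y) * conj (F (a^[l] y)) ∂μ‖) ?_ ?_
  · have hk' : (0 : ℝ) < k := by exact_mod_cast hk0
    rw [div_le_iff₀ (by positivity)]
    rw [div_lt_iff₀ hk'] at hk
    refine hsum.trans ?_
    have := mul_le_mul_of_nonneg_left hk.le (by positivity : (0 : ℝ) ≤ 2 * k)
    refine this.trans (le_of_eq ?_)
    ring
  · intro j l
    have := hshift j 0 l
    rw [zero_add, add_comm j l] at this
    simp only [this, Function.iterate_zero, id_eq]
  · intro j l
    have := hshift 0 j l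
    rw [zero_add, add_comm j l] at this
    simp only [this, Function.iterate_zero, id_eq]
    rw [← Complex.norm_conj, ← integral_conj]
    congr 1
    refine integral_congr_ae (Eventually.of_forall fun y => ?_)
    simp only [map_mul, Complex.conj_conj]
    ring

/-- The packet `x : G → S` is the image under `proj` of a packet upstairs: `X : Ω → Y` for a probability
space `Ω` (in use a compact group) with a measure-preserving map `t` (multiplication by an element)
which corresponds to the map `a` of `Y` and to the multiplication by `c` of `G`. -/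
structure Lifts {Y S : Type} [MeasurableSpace Y] (a : Y → Y) (proj : Y → S)
    {G : Type} [CommGroup G] [Fintype G] (x : G → S) {Ω : Type} [MeasurableSpace Ω] (P : Measure Ω)
    (X : Ω → Y) (t : Ω → Ω) (q : Ω → G) (c : G) : Prop where
  measurable : Measurable X
  preserves : MeasurePreserving t P P
  fibre : ∀ g, MeasurableSet (q ⁻¹' {g})
  uniform : ∀ g, P.real (q ⁻¹' {g}) = 1 / Fintype.card G
  shift : ∀ ω, X (t ω) = a (X ω)
  factor : ∀ ω, q (t ω) = c * q ω
  proj_eq : ∀ ω, proj (X ω) = x (q ω)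

section

variable {S : Type} {a : Y → Y} {proj : Y → S} {G : Type} [CommGroup G] [Fintype G] {x : G → S}
  {Ω : Type} [MeasurableSpace Ω] {P : Measure Ω} [IsProbabilityMeasure P] {X : Ω → Y} {t : Ω → Ω}
  {q : Ω → G} {c : G}

omit [TopologicalSpace Y] [BorelSpace Y] [IsProbabilityMeasure P] in
lemma Lifts.measurable_q (hL : Lifts a proj x P X t q c) (h : G → ℂ) : Measurable fun ω => h (q ω) := by
  let _ : MeasurableSpace G := ⊤
  have hq : Measurable q := measurable_to_countable' hL.fibre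
  exact (measurable_from_top (f := h)).comp hq

omit [TopologicalSpace Y] [BorelSpace Y] in
lemma Lifts.integral_q (hL : Lifts a proj x P X t q c) (h : G → ℂ) :
    ∫ ω, h (q ω) ∂P = (∑ g, h g) / Fintype.card G := by
  classical
  have e : (fun ω => h (q ω)) = fun ω => ∑ g, (q ⁻¹' {g}).indicator (fun _ => h g) ω := by
    funext ω
    rw [Finset.sum_eq_single (q ω)]
    · rw [Set.indicator_of_mem (by simp)]
    · intro g _ hg
      rw [Set.indicator_of_notMem]
      intro hmem
      exact hg (by simpa using hmem.symm)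
    · intro hmem
      exact absurd (mem_univ _) hmem
  rw [e, integral_finsetSum]
  · rw [Finset.sum_div]
    refine Finset.sum_congr rfl fun g _ => ?_
    rw [integral_indicator (hL.fibre g), setIntegral_const, hL.uniform g, Complex.real_smul]
    push_cast
    ring
  · intro g _
    exact (integrable_const _).indicator (hL.fibre g)

omit [TopologicalSpace Y] [BorelSpace Y] [IsProbabilityMeasure P] in
lemma Lifts.iter_X (hL : Lifts a proj x P X t q c) (j : ℕ) (ω : Ω) : X (t^[j] ω) = a^[j] (X ω) := by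
  induction j generalizing ω with
  | zero => rfl
  | succ j ih => rw [Function.iterate_succ_apply, ih, hL.shift, Function.iterate_succ_apply]

omit [TopologicalSpace Y] [BorelSpace Y] [IsProbabilityMeasure P] in
lemma Lifts.iter_q (hL : Lifts a proj x P X t q c) (j : ℕ) (ω : Ω) : q (t^[j] ω) = c ^ j * q ω := by
  induction j generalizing ω with
  | zero => simp
  | succ j ih =>
    rw [Function.iterate_succ_apply, ih, hL.factor, pow_succ, mul_assoc]

lemma sq_integral_le (P : Measure Ω) [IsProbabilityMeasure P] {u : Ω → ℝ} (hu : Integrable u P)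
    (hu2 : Integrable (fun ω => u ω ^ 2) P) : (∫ ω, u ω ∂P) ^ 2 ≤ ∫ ω, u ω ^ 2 ∂P := by
  set m := ∫ ω, u ω ∂P with hm
  have h1 : 0 ≤ ∫ ω, (u ω - m) ^ 2 ∂P := integral_nonneg fun ω => sq_nonneg _
  have h2 : ∫ ω, (u ω - m) ^ 2 ∂P = ∫ ω, u ω ^ 2 ∂P - m ^ 2 := by
    have e : (fun ω => (u ω - m) ^ 2) = fun ω => (u ω ^ 2 - 2 * m * u ω) + m ^ 2 := by
      funext ω
      ring
    have i1 : Integrable (fun ω => 2 * m * u ω) P := hu.const_mul _
    have i2 : Integrable (fun ω => u ω ^ 2 - 2 * m * u ω) P := hu2.sub i1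
    have e1 := integral_add (μ := P) (f := fun ω => u ω ^ 2 - 2 * m * u ω) (g := fun _ => m ^ 2) i2
      (integrable_const _)
    have e2 := integral_sub (μ := P) (f := fun ω => u ω ^ 2) (g := fun ω => 2 * m * u ω) hu2 i1
    have e3 : ∫ ω, 2 * m * u ω ∂P = 2 * m * m := by rw [integral_const_mul, ← hm]
    have e4 : ∫ _ω : Ω, m ^ 2 ∂P = m ^ 2 := by rw [integral_const, probReal_univ, one_smul]
    rw [e, e1, e2, e3, e4]
    ring
  linarith

/-- **The twisted sums of a packet are bounded by the correlations upstairs.** -/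
theorem Lifts.W_sq_le (hL : Lifts a proj x P X t q c) (ha : Continuous a) (f : S → ℂ) (F : Y →ᵇ ℂ)
    (hF : ∀ y, F y = f (proj y)) (χ : G →* ℂ) (k : ℕ) (hk : 0 < k) :
    ‖W χ fun g => f (x g)‖ ^ 2 ≤ (∑ j ∈ range k, ∑ l ∈ range k,
      ‖∫ ω, F (a^[j] (X ω)) * conj (F (a^[l] (X ω))) ∂P‖) / (k : ℝ) ^ 2 := by
  have hmeasF : ∀ j : ℕ, Measurable fun ω => F (a^[j] (X ω)) := fun j =>
    ((F.continuous.comp (ha.iterate j)).measurable).comp hL.measurable
  have hmeasq : Measurable fun ω => χ (q ω) := hL.measurable_q (fun g => χ g)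
  have hbF : ∀ j ω, ‖F (a^[j] (X ω))‖ ≤ ‖F‖ := fun j ω => F.norm_coe_le_norm _
  have hW : (W χ fun g => f (x g)) = ∫ ω, χ (q ω) * F (X ω) ∂P := by
    have h1 := hL.integral_q fun g => χ g * f (x g)
    unfold W
    rw [← h1]
    refine integral_congr_ae (Eventually.of_forall fun ω => ?_)
    simp only [hF, hL.proj_eq]
  have hWj : ∀ j : ℕ, (W χ fun g => f (x g)) = ∫ ω, χ (q ω) * (χ c ^ j * F (a^[j] (X ω))) ∂P := by
    intro j
    have e := (hL.preserves.iterate j).map_eq
    have hm : Measurable fun ω => χ (q ω) * F (X ω) := hmeasq.mul (hmeasF 0)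
    have h3 : ∫ ω, χ (q ω) * F (X ω) ∂(P.map t^[j]) =
        ∫ ω, χ (q (t^[j] ω)) * F (X (t^[j] ω)) ∂P :=
      integral_map (hL.preserves.iterate j).measurable.aemeasurable hm.aestronglyMeasurable
    rw [e] at h3
    rw [hW, h3]
    refine integral_congr_ae (Eventually.of_forall fun ω => ?_)
    simp only [hL.iter_X, hL.iter_q, map_mul, map_pow]
    ring
  set Φ : Ω → ℂ := fun ω => ∑ j ∈ range k, χ c ^ j * F (a^[j] (X ω)) with hΦ
  have hΦm : Measurable Φ := Finset.measurable_sum _ fun j _ => (hmeasF j).const_mul _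
  have hΦb : ∀ ω, ‖Φ ω‖ ≤ k * ‖F‖ := by
    intro ω
    refine (norm_sum_le _ _).trans ?_
    calc ∑ j ∈ range k, ‖χ c ^ j * F (a^[j] (X ω))‖ ≤ ∑ _j ∈ range k, ‖F‖ := by
          refine Finset.sum_le_sum fun j _ => ?_
          rw [norm_mul, norm_pow, norm_char, one_pow, one_mul]
          exact hbF j ω
      _ = k * ‖F‖ := by rw [sum_const, card_range, nsmul_eq_mul]
  have hkW : (k : ℂ) * (W χ fun g => f (x g)) = ∫ ω, χ (q ω) * Φ ω ∂P := by
    have h1 : (k : ℂ) * (W χ fun g => f (x g)) =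
        ∑ j ∈ range k, ∫ ω, χ (q ω) * (χ c ^ j * F (a^[j] (X ω))) ∂P := by
      rw [← Finset.sum_congr rfl fun j _ => hWj j, sum_const, card_range, nsmul_eq_mul]
    rw [h1, ← integral_finsetSum]
    · refine integral_congr_ae (Eventually.of_forall fun ω => ?_)
      simp only [hΦ, Finset.mul_sum]
    · intro j _
      refine Integrable.of_bound (hmeasq.mul ((hmeasF j).const_mul _)).aestronglyMeasurable ‖F‖
        (Eventually.of_forall fun ω => ?_)
      rw [norm_mul, norm_mul, norm_pow, norm_char, norm_char, one_pow, one_mul, one_mul]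
      exact hbF j ω
  have hint : Integrable (fun ω => ‖Φ ω‖) P := by
    refine Integrable.of_bound hΦm.norm.aestronglyMeasurable (k * ‖F‖) (Eventually.of_forall fun ω => ?_)
    rw [norm_norm]
    exact hΦb ω
  have hint2 : Integrable (fun ω => ‖Φ ω‖ ^ 2) P := by
    refine Integrable.of_bound (hΦm.norm.pow_const 2).aestronglyMeasurable ((k * ‖F‖) ^ 2)
      (Eventually.of_forall fun ω => ?_)
    rw [norm_pow, norm_norm]
    exact pow_le_pow_left₀ (norm_nonneg _) (hΦb ω) 2
  have h1 : (k : ℝ) * ‖W χ fun g => f (x g)‖ ≤ ∫ ω, ‖Φ ω‖ ∂P := by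
    have h2 : (k : ℝ) * ‖W χ fun g => f (x g)‖ = ‖(k : ℂ) * (W χ fun g => f (x g))‖ := by
      rw [norm_mul, Complex.norm_natCast]
    rw [h2, hkW]
    refine (norm_integral_le_integral_norm _).trans (le_of_eq ?_)
    refine integral_congr_ae (Eventually.of_forall fun ω => ?_)
    simp only [norm_mul, norm_char, one_mul]
  have h2 : ((k : ℝ) * ‖W χ fun g => f (x g)‖) ^ 2 ≤ ∫ ω, ‖Φ ω‖ ^ 2 ∂P :=
    (pow_le_pow_left₀ (by positivity) h1 2).trans (sq_integral_le P hint hint2)
  have h3 : ∫ ω, ‖Φ ω‖ ^ 2 ∂P ≤ ∑ j ∈ range k, ∑ l ∈ range k,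
      ‖∫ ω, F (a^[j] (X ω)) * conj (F (a^[l] (X ω))) ∂P‖ := by
    have e1 : ((∫ ω, ‖Φ ω‖ ^ 2 ∂P : ℝ) : ℂ) = ∑ j ∈ range k, ∑ l ∈ range k,
        χ c ^ j * conj (χ c ^ l) * ∫ ω, F (a^[j] (X ω)) * conj (F (a^[l] (X ω))) ∂P := by
      rw [← integral_complex_ofReal]
      have e2 : ∀ ω, ((‖Φ ω‖ ^ 2 : ℝ) : ℂ) = ∑ j ∈ range k, ∑ l ∈ range k,
          χ c ^ j * conj (χ c ^ l) * (F (a^[j] (X ω)) * conj (F (a^[l] (X ω)))) := by
        intro ω
        rw [Complex.ofReal_pow, ← Complex.mul_conj', hΦ]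
        simp only
        rw [map_sum, Finset.sum_mul_sum]
        refine Finset.sum_congr rfl fun j _ => Finset.sum_congr rfl fun l _ => ?_
        rw [map_mul]
        ring
      have hI : ∀ j l : ℕ, Integrable (fun ω => χ c ^ j * conj (χ c ^ l) *
          (F (a^[j] (X ω)) * conj (F (a^[l] (X ω))))) P := by
        intro j l
        refine Integrable.of_bound (((hmeasF j).mul
          (Complex.continuous_conj.measurable.comp (hmeasF l))).const_mul _).aestronglyMeasurable
          (‖F‖ * ‖F‖) (Eventually.of_forall fun ω => ?_)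
        rw [norm_mul, norm_mul, norm_mul, Complex.norm_conj, Complex.norm_conj, norm_pow, norm_pow,
          norm_char, one_pow, one_pow, one_mul, one_mul]
        exact mul_le_mul (hbF j ω) (hbF l ω) (norm_nonneg _) (norm_nonneg _)
      rw [integral_congr_ae (Eventually.of_forall e2), integral_finsetSum]
      · refine Finset.sum_congr rfl fun j _ => ?_
        rw [integral_finsetSum]
        · refine Finset.sum_congr rfl fun l _ => ?_
          rw [integral_const_mul]
        · intro l _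
          exact hI j l
      · intro j _
        exact integrable_finset_sum _ fun l _ => hI j l
    have h4 : ∫ ω, ‖Φ ω‖ ^ 2 ∂P = ‖((∫ ω, ‖Φ ω‖ ^ 2 ∂P : ℝ) : ℂ)‖ := by
      rw [Complex.norm_real, Real.norm_of_nonneg (integral_nonneg fun ω => sq_nonneg _)]
    rw [h4, e1]
    refine (norm_sum_le _ _).trans (Finset.sum_le_sum fun j _ => ?_)
    refine (norm_sum_le _ _).trans (Finset.sum_le_sum fun l _ => ?_)
    rw [norm_mul, norm_mul, Complex.norm_conj, norm_pow, norm_pow, norm_char, one_pow, one_pow,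
      one_mul, one_mul]
  have hk' : (0 : ℝ) < k := by exact_mod_cast hk
  rw [le_div_iff₀ (by positivity)]
  calc ‖W χ fun g => f (x g)‖ ^ 2 * (k : ℝ) ^ 2 = ((k : ℝ) * ‖W χ fun g => f (x g)‖) ^ 2 := by ring
    _ ≤ _ := h2.trans h3

end

/-- **Twisted equidistribution from mixing.** -/
theorem twisted_of_mixing {S : Type} [TopologicalSpace S] {μ : Measure Y} [IsProbabilityMeasure μ]
    {a : Y → Y} (ha : Continuous a) (hμ : MeasurePreserving a μ μ) (hmix : WeakMix μ a)
    {proj : Y → S} (hproj : Continuous proj) {G : ℕ → Type} [∀ i, CommGroup (G i)]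
    [∀ i, Fintype (G i)] {x : ∀ i, G i → S} {Ω : ℕ → Type} [∀ i, MeasurableSpace (Ω i)]
    {P : ∀ i, Measure (Ω i)} [∀ i, IsProbabilityMeasure (P i)] {X : ∀ i, Ω i → Y}
    {t : ∀ i, Ω i → Ω i} {q : ∀ i, Ω i → G i} {c : ∀ i, G i}
    (hL : ∀ i, Lifts a proj (x i) (P i) (X i) (t i) (q i) (c i))
    (hE : ∀ F : Y →ᵇ ℂ, Tendsto (fun i => ∫ ω, F (X i ω) ∂(P i)) atTop (𝓝 (∫ y, F y ∂μ)))
    (f : S →ᵇ ℂ) {ε : ℝ} (hε : 0 < ε) :
    ∀ᶠ i in atTop, ∀ χ : G i →* ℂ, ‖W χ fun g => f (x i g) - ∫ y, f (proj y) ∂μ‖ ≤ ε := by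
  set m := ∫ y, f (proj y) ∂μ with hm
  set F : Y →ᵇ ℂ := f.compContinuous ⟨proj, hproj⟩ - BoundedContinuousFunction.const Y m with hFdef
  have hF : ∀ y, F y = f (proj y) - m := fun y => rfl
  have hF0 : ∫ y, F y ∂μ = 0 := by
    simp only [hF]
    rw [integral_sub _ (integrable_const _), ← hm, integral_const, probReal_univ, one_smul, sub_self]
    exact integrable_bcf μ (f.continuous.comp hproj) fun y => f.norm_coe_le_norm _
  obtain ⟨k, hk0, hk⟩ := corr_small ha hμ hmix F hF0 (half_pos (pow_pos hε 2))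
  have hlim : Tendsto (fun i => (∑ j ∈ range k, ∑ l ∈ range k,
      ‖∫ ω, F (a^[j] (X i ω)) * conj (F (a^[l] (X i ω))) ∂(P i)‖) / (k : ℝ) ^ 2) atTop
      (𝓝 ((∑ j ∈ range k, ∑ l ∈ range k,
      ‖∫ y, F (a^[j] y) * conj (F (a^[l] y)) ∂μ‖) / (k : ℝ) ^ 2)) := by
    refine Tendsto.div_const (tendsto_finset_sum _ fun j _ => tendsto_finset_sum _ fun l _ => ?_) _
    refine Tendsto.norm ?_
    set H : Y →ᵇ ℂ := (F.compContinuous ⟨a^[j], ha.iterate j⟩) *
      star (F.compContinuous ⟨a^[l], ha.iterate l⟩) with hH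
    exact hE H
  have h1 := hlim.eventually_lt_const (lt_of_le_of_lt hk (half_lt_self (pow_pos hε 2)))
  filter_upwards [h1] with i hi χ
  have h2 := (hL i).W_sq_le ha (fun s => f s - m) F hF χ k hk0
  have h3 : ‖W χ fun g => f (x i g) - m‖ ^ 2 ≤ ε ^ 2 := h2.trans hi.le
  exact (abs_le_of_sq_le_sq' h3 hε.le).2

end Pool.Agent.Q12.CM
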