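import Pool.Agent.Q12.CM.Sub

/-! # Subgroups of products of different groups -/

set_option autoImplicit false

open Finset
open scoped ComplexConjugate

namespace Pool.Agent.Q12.CM

variable {n : ℕ} {G : Fin n → Type} [∀ j, CommGroup (G j)] [∀ j, Fintype (G j)]

/-- the average over `B` of the product of the `F j` -/
noncomputable def PB (F : ∀ j, G j → ℂ) (B : Finset (∀ j, G j)) (a : ∀ j, G j) : ℂ :=
  (∑ b ∈ B, ∏ j, F j (b j * a j)) / B.card

open Classical in
/-- **The mean square over all tuples.** -/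
theorem P_mean_sq {F : ∀ j, G j → ℂ} {C w : ℝ} (hC1 : 1 ≤ C)
    (hC : ∀ j g, ‖F j g‖ ≤ C) {B : Finset (∀ j, G j)} (hB : B.Nonempty) {M : ℝ} (j₀ : Fin n)
    (hM : ∀ u : G j₀, ((B.filter fun b => b j₀ = u).card : ℝ) * Fintype.card (G j₀) ≤ M * B.card)
    (hW : ∀ χ : G j₀ →* ℂ, ‖W χ (F j₀)‖ ≤ w) :
    ∑ a : ∀ j, G j, ‖PB F B a‖ ^ 2 ≤ M * w * C ^ (2 * n) * ∏ j, (Fintype.card (G j) : ℝ) := by
  classical
  have hp : ∀ j, (0 : ℝ) < Fintype.card (G j) := fun j => card_pos'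
  have hc : ∀ j, (Fintype.card (G j) : ℂ) ≠ 0 := fun j => card_ne
  have hC0 : 0 ≤ C := by linarith
  have hw0 : 0 ≤ w := (norm_nonneg _).trans (hW 1)
  have hBp : (0 : ℝ) < B.card := by exact_mod_cast hB.card_pos
  have hM0 : 0 ≤ M := by
    have h1 := hM 1
    have h2 : (0 : ℝ) ≤ ((B.filter fun b => b j₀ = 1).card : ℝ) * Fintype.card (G j₀) := by positivity
    by_contra hneg
    push Not at hneg
    have h3 := mul_neg_of_neg_of_pos hneg hBp
    linarith
  have hACle : ∀ j u, ‖AC (F j) u‖ ≤ C ^ 2 := by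
    intro j u
    unfold AC
    rw [norm_div, Complex.norm_natCast, div_le_iff₀ (hp j)]
    refine (norm_sum_le _ _).trans ?_
    calc ∑ g, ‖F j (u * g) * conj (F j g)‖ ≤ ∑ _g : G j, C ^ 2 := by
          refine Finset.sum_le_sum fun g _ => ?_
          rw [norm_mul, Complex.norm_conj, sq]
          exact mul_le_mul (hC _ _) (hC _ _) (norm_nonneg _) hC0
      _ = C ^ 2 * Fintype.card (G j) := by rw [Finset.sum_const, card_univ, nsmul_eq_mul, mul_comm]
  set D : ℝ := ∏ j, (Fintype.card (G j) : ℝ) with hD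
  have hDp : 0 < D := Finset.prod_pos fun j _ => hp j
  have hDc : (D : ℂ) = ∏ j, (Fintype.card (G j) : ℂ) := by
    rw [hD]
    push_cast
    rfl
  -- the expansion
  have key : ((∑ a : ∀ j, G j, ‖PB F B a‖ ^ 2 : ℝ) : ℂ) =
      (∑ b ∈ B, ∑ b' ∈ B, ∏ j, AC (F j) (b j * (b' j)⁻¹)) * D / (B.card : ℂ) ^ 2 := by
    push_cast
    have h1 : ∀ a : ∀ j, G j, ((‖PB F B a‖ : ℂ)) ^ 2 =
        (∑ b ∈ B, ∑ b' ∈ B, ∏ j, (F j (b j * a j) * conj (F j (b' j * a j)))) / (B.card : ℂ) ^ 2 := by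
      intro a
      rw [← Complex.mul_conj', PB, map_div₀, map_sum, Complex.conj_natCast, div_mul_div_comm, ← sq,
        Finset.sum_mul_sum]
      congr 1
      refine Finset.sum_congr rfl fun b _ => Finset.sum_congr rfl fun b' _ => ?_
      rw [map_prod, ← Finset.prod_mul_distrib]
    simp_rw [h1]
    rw [← Finset.sum_div]
    congr 1
    rw [Finset.sum_comm, Finset.sum_mul]
    refine Finset.sum_congr rfl fun b _ => ?_
    rw [Finset.sum_comm, Finset.sum_mul]
    refine Finset.sum_congr rfl fun b' _ => ?_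
    have h2 := Finset.prod_univ_sum (fun j => (univ : Finset (G j)))
      (fun j x => F j (b j * x) * conj (F j (b' j * x)))
    rw [Fintype.piFinset_univ] at h2
    rw [← h2]
    have h3 : ∀ j, ∑ x, F j (b j * x) * conj (F j (b' j * x)) =
        AC (F j) (b j * (b' j)⁻¹) * (Fintype.card (G j) : ℂ) := by
      intro j
      unfold AC
      rw [div_mul_cancel₀ _ (hc j)]
      refine Fintype.sum_equiv (Equiv.mulLeft (b' j)) _ _ fun x => ?_
      simp only [Equiv.coe_mulLeft]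
      rw [show b j * (b' j)⁻¹ * (b' j * x) = b j * x by group]
    simp_rw [h3]
    rw [Finset.prod_mul_distrib, hDc]
  have hnn : 0 ≤ ∑ a : ∀ j, G j, ‖PB F B a‖ ^ 2 := by positivity
  have hn1 : 1 ≤ n := Nat.one_le_iff_ne_zero.2 fun h => by subst h; exact j₀.elim0
  have h4 : ∑ a : ∀ j, G j, ‖PB F B a‖ ^ 2 ≤
      (∑ b ∈ B, ∑ b' ∈ B, C ^ (2 * (n - 1)) * ‖AC (F j₀) (b j₀ * (b' j₀)⁻¹)‖) * D / (B.card : ℝ) ^ 2 := by
    rw [← Real.norm_of_nonneg hnn, ← Complex.norm_real, key, norm_div, norm_mul, norm_pow,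
      Complex.norm_natCast, Complex.norm_real, Real.norm_of_nonneg hDp.le]
    refine div_le_div_of_nonneg_right (mul_le_mul_of_nonneg_right ?_ hDp.le) (by positivity)
    refine (norm_sum_le _ _).trans (Finset.sum_le_sum fun b _ => ?_)
    refine (norm_sum_le _ _).trans (Finset.sum_le_sum fun b' _ => ?_)
    rw [norm_prod, ← Finset.mul_prod_erase univ _ (mem_univ j₀), mul_comm]
    refine mul_le_mul_of_nonneg_right ?_ (norm_nonneg _)
    refine (Finset.prod_le_prod (fun _ _ => norm_nonneg _) fun j _ => hACle j _).trans (le_of_eq ?_)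
    rw [Finset.prod_const, card_erase_of_mem (mem_univ j₀), card_univ, Fintype.card_fin, ← pow_mul]
  have h6 : ∑ u, ‖AC (F j₀) u‖ ≤ w * C * Fintype.card (G j₀) := by
    have := AC_one (hC j₀) hW
    rwa [div_le_iff₀ (hp j₀)] at this
  have h5 : ∀ b' ∈ B, ∑ b ∈ B, ‖AC (F j₀) (b j₀ * (b' j₀)⁻¹)‖ ≤ M * B.card * (w * C) := by
    intro b' _
    have h7 : (∑ b ∈ B, ‖AC (F j₀) (b j₀ * (b' j₀)⁻¹)‖) * Fintype.card (G j₀) ≤
        M * B.card * (w * C) * Fintype.card (G j₀) := by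
      calc (∑ b ∈ B, ‖AC (F j₀) (b j₀ * (b' j₀)⁻¹)‖) * Fintype.card (G j₀)
          = (∑ u, ∑ b ∈ B.filter (fun b => b j₀ = u), ‖AC (F j₀) (b j₀ * (b' j₀)⁻¹)‖) *
              Fintype.card (G j₀) := by
            rw [Finset.sum_fiberwise B (fun b => b j₀) fun b => ‖AC (F j₀) (b j₀ * (b' j₀)⁻¹)‖]
        _ = ∑ u, (((B.filter fun b => b j₀ = u).card : ℝ) * Fintype.card (G j₀)) *
              ‖AC (F j₀) (u * (b' j₀)⁻¹)‖ := by
            rw [Finset.sum_mul]
            refine Finset.sum_congr rfl fun u _ => ?_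
            have : ∑ b ∈ B.filter (fun b => b j₀ = u), ‖AC (F j₀) (b j₀ * (b' j₀)⁻¹)‖ =
                ∑ b ∈ B.filter (fun b => b j₀ = u), ‖AC (F j₀) (u * (b' j₀)⁻¹)‖ := by
              refine Finset.sum_congr rfl fun b hb => ?_
              rw [mem_filter] at hb
              rw [hb.2]
            rw [this, Finset.sum_const, nsmul_eq_mul]
            ring
        _ ≤ ∑ u, (M * B.card) * ‖AC (F j₀) (u * (b' j₀)⁻¹)‖ :=
            Finset.sum_le_sum fun u _ => mul_le_mul_of_nonneg_right (hM u) (norm_nonneg _)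
        _ = (M * B.card) * ∑ u, ‖AC (F j₀) u‖ := by
            rw [← Finset.mul_sum]
            congr 1
            exact Fintype.sum_equiv (Equiv.mulRight (b' j₀)⁻¹) _ _ fun _ => rfl
        _ ≤ (M * B.card) * (w * C * Fintype.card (G j₀)) := by gcongr
        _ = M * B.card * (w * C) * Fintype.card (G j₀) := by ring
    exact le_of_mul_le_mul_right h7 (hp j₀)
  refine h4.trans ?_
  rw [div_le_iff₀ (by positivity), Finset.sum_comm]
  simp_rw [← Finset.mul_sum]
  have h7 : ∑ b' ∈ B, ∑ b ∈ B, ‖AC (F j₀) (b j₀ * (b' j₀)⁻¹)‖ ≤ B.card * (M * B.card * (w * C)) := by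
    refine (Finset.sum_le_card_nsmul _ _ _ fun b' hb' => h5 b' hb').trans ?_
    rw [nsmul_eq_mul]
  calc C ^ (2 * (n - 1)) * (∑ b' ∈ B, ∑ b ∈ B, ‖AC (F j₀) (b j₀ * (b' j₀)⁻¹)‖) * D
      ≤ C ^ (2 * (n - 1)) * (B.card * (M * B.card * (w * C))) * D := by gcongr
    _ = M * w * C ^ (2 * (n - 1) + 1) * D * (B.card : ℝ) ^ 2 := by ring
    _ ≤ M * w * C ^ (2 * n) * D * (B.card : ℝ) ^ 2 := by
        have h8 : C ^ (2 * (n - 1) + 1) ≤ C ^ (2 * n) := pow_le_pow_right₀ hC1 (by omega)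
        gcongr

/-- the telescoping functions -/
noncomputable def Fd (F : ∀ j, G j → ℂ) (m : Fin n → ℂ) (i j : Fin n) (g : G j) : ℂ :=
  if j < i then m j else if j = i then F j g - m j else F j g

omit [∀ j, CommGroup (G j)] [∀ j, Fintype (G j)] in
theorem prod_sub_prod_d (F : ∀ j, G j → ℂ) (m : Fin n → ℂ) (g : ∀ j, G j) :
    ∏ j, F j (g j) - ∏ j, m j = ∑ i, ∏ j, Fd F m i j (g j) :=
  prod_sub_prod (G := Unit) (fun j _ => F j (g j)) m fun _ => ()

open Classical in
/-- **The mean square of the error.** -/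
theorem P_mean_one {F : ∀ j, G j → ℂ} {m : Fin n → ℂ} {C w : ℝ} (hC1 : 1 ≤ C)
    (hC : ∀ j g, ‖F j g‖ ≤ C) (hm : ∀ j, ‖m j‖ ≤ C) {B : Finset (∀ j, G j)} (hB : B.Nonempty) {M : ℝ}
    (hM : ∀ j, ∀ u : G j, ((B.filter fun b => b j = u).card : ℝ) * Fintype.card (G j) ≤ M * B.card)
    (hW : ∀ j, ∀ χ : G j →* ℂ, ‖W χ fun g => F j g - m j‖ ≤ w) :
    ∑ a : ∀ j, G j, ‖PB F B a - ∏ j, m j‖ ^ 2 ≤
      n ^ 2 * (M * w * (2 * C) ^ (2 * n)) * ∏ j, (Fintype.card (G j) : ℝ) := by
  classical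
  have hBc : (B.card : ℂ) ≠ 0 := by exact_mod_cast hB.card_pos.ne'
  have h1 : ∀ a, PB F B a - ∏ j, m j = ∑ i, PB (Fd F m i) B a := by
    intro a
    unfold PB
    rw [← Finset.sum_div, div_sub' hBc]
    congr 1
    rw [Finset.sum_comm, show (B.card : ℂ) * ∏ j, m j = ∑ _b ∈ B, ∏ j, m j by
      rw [Finset.sum_const, nsmul_eq_mul], ← Finset.sum_sub_distrib]
    refine Finset.sum_congr rfl fun b _ => ?_
    exact prod_sub_prod_d F m fun j => b j * a j
  have h2 : ∀ a, ‖PB F B a - ∏ j, m j‖ ^ 2 ≤ n * ∑ i, ‖PB (Fd F m i) B a‖ ^ 2 := by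
    intro a
    rw [h1]
    refine (pow_le_pow_left₀ (norm_nonneg _) (norm_sum_le _ _) 2).trans ?_
    have := sq_sum_le_card_mul_sum_sq (s := (univ : Finset (Fin n))) (f := fun i => ‖PB (Fd F m i) B a‖)
    rwa [card_univ, Fintype.card_fin] at this
  have h3 : ∀ i, ∑ a : ∀ j, G j, ‖PB (Fd F m i) B a‖ ^ 2 ≤
      M * w * (2 * C) ^ (2 * n) * ∏ j, (Fintype.card (G j) : ℝ) := by
    intro i
    refine P_mean_sq (by linarith) (fun j g => ?_) hB i (hM i) fun χ => ?_
    · unfold Fd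
      split_ifs
      · linarith [hm j]
      · exact (norm_sub_le _ _).trans (by linarith [hm j, hC j g])
      · linarith [hC j g]
    · have : Fd F m i i = fun g => F i g - m i := by
        funext g
        simp [Fd]
      rw [this]
      exact hW i χ
  calc ∑ a : ∀ j, G j, ‖PB F B a - ∏ j, m j‖ ^ 2 ≤ ∑ a : ∀ j, G j, n * ∑ i, ‖PB (Fd F m i) B a‖ ^ 2 :=
        Finset.sum_le_sum fun a _ => h2 a
    _ = n * ∑ i, ∑ a : ∀ j, G j, ‖PB (Fd F m i) B a‖ ^ 2 := by
        rw [← Finset.mul_sum, Finset.sum_comm]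
    _ ≤ n * ∑ _i : Fin n, M * w * (2 * C) ^ (2 * n) * ∏ j, (Fintype.card (G j) : ℝ) := by
        gcongr with i _
        exact h3 i
    _ = n ^ 2 * (M * w * (2 * C) ^ (2 * n)) * ∏ j, (Fintype.card (G j) : ℝ) := by
        rw [Finset.sum_const, card_univ, Fintype.card_fin, nsmul_eq_mul]
        ring

open Classical in
/-- the fibres of the projections of a subgroup -/
theorem fibre_le (B : Subgroup (∀ j, G j)) {M : ℕ} (j : Fin n)
    (hM : (B.map (Pi.evalMonoidHom G j)).index ≤ M) (u : G j) :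
    ((((univ : Finset (∀ j, G j)).filter fun b => b ∈ B).filter fun b => b j = u).card : ℝ) *
      Fintype.card (G j) ≤ M * ((univ : Finset (∀ j, G j)).filter fun b => b ∈ B).card := by
  classical
  set φ : B →* G j := (Pi.evalMonoidHom G j).comp B.subtype with hφ
  have hrange : φ.range = B.map (Pi.evalMonoidHom G j) := by
    rw [hφ, MonoidHom.range_comp, Subgroup.range_subtype]
  have h1 : Nat.card φ.range * Nat.card φ.ker = Nat.card B := by
    rw [← Subgroup.index_ker, Subgroup.index_mul_card]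
  have h2 : (B.map (Pi.evalMonoidHom G j)).index * Nat.card φ.range = Fintype.card (G j) := by
    rw [hrange, Subgroup.index_mul_card, Nat.card_eq_fintype_card]
  have hcard : Nat.card B = (univ.filter fun b => b ∈ B).card := by
    rw [Nat.card_eq_fintype_card, ← Fintype.card_subtype]
  have h3 : (((univ : Finset (∀ j, G j)).filter fun b => b ∈ B).filter fun b => b j = u).card ≤ Nat.card φ.ker := by
    rcases Finset.eq_empty_or_nonempty (((univ : Finset (∀ j, G j)).filter fun b => b ∈ B).filter fun b => b j = u) with h | ⟨b₀, hb₀⟩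
    · rw [h, card_empty]
      exact Nat.zero_le _
    · rw [mem_filter, mem_filter] at hb₀
      have hmem : ∀ b : {b // b ∈ (((univ : Finset (∀ j, G j)).filter fun b => b ∈ B).filter fun b => b j = u)},
          b.1 * b₀⁻¹ ∈ B := fun b => by
        have := b.2
        rw [mem_filter, mem_filter] at this
        exact B.mul_mem this.1.2 (B.inv_mem hb₀.1.2)
      have hker : ∀ b : {b // b ∈ (((univ : Finset (∀ j, G j)).filter fun b => b ∈ B).filter fun b => b j = u)},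
          (⟨b.1 * b₀⁻¹, hmem b⟩ : B) ∈ φ.ker := fun b => by
        have := b.2
        rw [mem_filter, mem_filter] at this
        rw [MonoidHom.mem_ker, hφ]
        change (b.1 * b₀⁻¹) j = 1
        rw [Pi.mul_apply, Pi.inv_apply, this.2, hb₀.2, mul_inv_cancel]
      rw [← Fintype.card_coe, ← Nat.card_eq_fintype_card]
      refine Nat.card_le_card_of_injective (fun b => (⟨⟨b.1 * b₀⁻¹, hmem b⟩, hker b⟩ : φ.ker)) ?_
      intro b b' h
      have h4 : b.1 * b₀⁻¹ = b'.1 * b₀⁻¹ := congrArg (fun z : φ.ker => z.1.1) h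
      exact Subtype.ext (mul_right_cancel h4)
  have h4 : (((univ : Finset (∀ j, G j)).filter fun b => b ∈ B).filter fun b => b j = u).card * Fintype.card (G j) ≤
      M * ((univ : Finset (∀ j, G j)).filter fun b => b ∈ B).card := by
    rw [← hcard, ← h1, ← h2]
    calc (((univ : Finset (∀ j, G j)).filter fun b => b ∈ B).filter fun b => b j = u).card *
          ((B.map (Pi.evalMonoidHom G j)).index * Nat.card φ.range)
        ≤ Nat.card φ.ker * (M * Nat.card φ.range) := by gcongr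
      _ = M * (Nat.card φ.range * Nat.card φ.ker) := by ring
  exact_mod_cast h4

/-- **Almost all tuples, for arbitrary subgroups with large projections.** -/
theorem P_count {F : ∀ j, G j → ℂ} {m : Fin n → ℂ} {C w : ℝ} (hC1 : 1 ≤ C)
    (hC : ∀ j g, ‖F j g‖ ≤ C) (hm : ∀ j, ‖m j‖ ≤ C) (B : Subgroup (∀ j, G j)) {M : ℕ}
    (hM : ∀ j, (B.map (Pi.evalMonoidHom G j)).index ≤ M)
    (hW : ∀ j, ∀ χ : G j →* ℂ, ‖W χ fun g => F j g - m j‖ ≤ w) {ε : ℝ} (hε : 0 < ε)
    (y : ∀ j, G j) (s : Fin n → ℤˣ) :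
    ({a : ∀ j, G j | ε < ‖(∑ᶠ b : B, ∏ j, F j (y j * b.1 j * a j ^ (s j : ℤ))) / Nat.card B -
      ∏ j, m j‖}.ncard : ℝ) ≤
      n ^ 2 * (M * w * (2 * C) ^ (2 * n)) / ε ^ 2 * ∏ j, (Fintype.card (G j) : ℝ) := by
  classical
  set B' : Finset (∀ j, G j) := univ.filter fun b => b ∈ B with hB'
  have hBne : B'.Nonempty := ⟨1, by simp [hB', B.one_mem]⟩
  have hcard : Nat.card B = B'.card := by
    rw [Nat.card_eq_fintype_card, ← Fintype.card_subtype]
  have h1 := P_mean_one hC1 hC hm hBne (M := (M : ℝ)) (fun j u => fibre_le B j (hM j) u) hW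
  have e : ∀ a : ∀ j, G j, (∑ᶠ b : B, ∏ j, F j (y j * b.1 j * a j ^ (s j : ℤ))) / Nat.card B =
      PB F B' fun j => y j * a j ^ (s j : ℤ) := by
    intro a
    unfold PB
    rw [finsum_eq_sum_of_fintype, hcard]
    congr 1
    have h2 : ∀ b : B, ∏ j, F j (y j * b.1 j * a j ^ (s j : ℤ)) =
        ∏ j, F j (b.1 j * (y j * a j ^ (s j : ℤ))) := fun b =>
      Finset.prod_congr rfl fun j _ => by rw [mul_comm (y j), mul_assoc]
    rw [Finset.sum_congr rfl fun b _ => h2 b]
    exact (Finset.sum_subtype B' (fun x => by simp [hB'])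
      fun b => ∏ j, F j (b j * (y j * a j ^ (s j : ℤ)))).symm
  simp_rw [e]
  set T : Finset (∀ j, G j) := univ.filter fun a => ε < ‖PB F B' a - ∏ j, m j‖ with hT
  have hTc : (T.card : ℝ) * ε ^ 2 ≤ n ^ 2 * (M * w * (2 * C) ^ (2 * n)) *
      ∏ j, (Fintype.card (G j) : ℝ) := by
    refine le_trans ?_ h1
    calc (T.card : ℝ) * ε ^ 2 = ∑ _a ∈ T, ε ^ 2 := by rw [Finset.sum_const, nsmul_eq_mul]
      _ ≤ ∑ a ∈ T, ‖PB F B' a - ∏ j, m j‖ ^ 2 := by
          refine Finset.sum_le_sum fun a ha => ?_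
          rw [hT, mem_filter] at ha
          exact pow_le_pow_left₀ hε.le ha.2.le 2
      _ ≤ ∑ a : ∀ j, G j, ‖PB F B' a - ∏ j, m j‖ ^ 2 :=
          Finset.sum_le_sum_of_subset_of_nonneg (subset_univ _) fun _ _ _ => by positivity
  have hinj : {a : ∀ j, G j | ε < ‖(PB F B' fun j => y j * a j ^ (s j : ℤ)) - ∏ j, m j‖}.ncard ≤
      T.card := by
    rw [← Set.ncard_coe_finset]
    refine Set.ncard_le_ncard_of_injOn (fun a : ∀ j, G j => fun j => y j * a j ^ (s j : ℤ)) ?_ ?_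
      (Set.toFinite _)
    · intro a ha
      rw [Set.mem_ofPred_eq] at ha
      rw [mem_coe, hT, mem_filter]
      exact ⟨mem_univ _, ha⟩
    · intro a _ a' _ h
      funext j
      have h2 : a j ^ (s j : ℤ) = a' j ^ (s j : ℤ) := mul_left_cancel (congrFun h j)
      rcases Int.units_eq_one_or (s j) with h3 | h3
      · rw [h3] at h2
        simpa using h2
      · rw [h3] at h2
        simpa using h2
  have hinj' : ({a : ∀ j, G j | ε < ‖(PB F B' fun j => y j * a j ^ (s j : ℤ)) - ∏ j, m j‖}.ncard : ℝ) ≤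
      T.card := by exact_mod_cast hinj
  refine hinj'.trans ?_
  rw [div_mul_eq_mul_div, le_div_iff₀ (by positivity)]
  exact hTc

end Pool.Agent.Q12.CM
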