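import Pool.Agent.Q12.CM.Mix
import Pool.Agent.Q12.CM.Prd

/-! # Small subgroups -/

set_option autoImplicit false

open Finset MeasureTheory Filter Topology
open scoped ComplexConjugate BoundedContinuousFunction

namespace Pool.Agent.Q12.CM

section

variable {G : Type} [CommGroup G] [Fintype G]

open Classical in
/-- **The autocorrelation on a subgroup.** -/
theorem AC_sub (H : Subgroup G) {F : G → ℂ} {C δ : ℝ} (hC : ∀ g, ‖F g‖ ≤ C)
    (hσ : ∀ ψ : H →* ℂ, (∑ y : G, ‖W ψ fun h : H => F (y * h)‖ ^ 2) / Fintype.card G ≤ δ) :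
    (∑ h : H, ‖AC F (h : G)‖) / Fintype.card H ≤ √δ * C := by
  have hp := card_pos' (G := G)
  have hpH := card_pos' (G := H)
  have hc := card_ne (G := G)
  have hcH := card_ne (G := H)
  have hC0 : 0 ≤ C := (norm_nonneg _).trans (hC 1)
  have hδ0 : 0 ≤ δ := le_trans (by positivity) (hσ 1)
  -- the restriction of the autocorrelation
  have hΘ : ∀ h : H, AC F (h : G) = (∑ y : G, AC (fun h' : H => F (y * h')) h) / Fintype.card G := by
    intro h
    have h1 : ∀ h' : H, ∑ y : G, F (y * ((h * h' : H) : G)) * conj (F (y * (h' : G))) =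
        ∑ g : G, F ((h : G) * g) * conj (F g) := by
      intro h'
      refine Fintype.sum_equiv (Equiv.mulRight (h' : G)) _ _ fun y => ?_
      simp only [Equiv.coe_mulRight, Subgroup.coe_mul]
      rw [show (h : G) * (y * (h' : G)) = y * ((h : G) * (h' : G)) by
        rw [← mul_assoc, mul_comm (h : G) y, mul_assoc]]
    unfold AC
    congr 1
    symm
    rw [← Finset.sum_div, Finset.sum_comm, div_eq_iff hcH, Finset.sum_congr rfl fun h' _ => h1 h',
      Finset.sum_const, card_univ, nsmul_eq_mul, mul_comm]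
  have hWΘ : ∀ ψ : AddChar (Additive H) ℂ, W (toM ψ) (fun h : H => AC F (h : G)) =
      (((∑ y : G, ‖W (toM ψ) fun h : H => F (y * h)‖ ^ 2) / Fintype.card G : ℝ) : ℂ) := by
    intro ψ
    push_cast
    have h1 : W (toM ψ) (fun h : H => AC F (h : G)) =
        (∑ y : G, W (toM ψ) (AC fun h' : H => F (y * h'))) / Fintype.card G := by
      unfold W
      rw [← Finset.sum_div, div_right_comm]
      congr 1
      rw [Finset.sum_comm]
      rw [Finset.sum_div]
      refine Finset.sum_congr rfl fun h _ => ?_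
      beta_reduce
      rw [hΘ h, ← Finset.mul_sum, mul_div_assoc]
    rw [h1]
    congr 1
    refine Finset.sum_congr rfl fun y _ => ?_
    rw [W_AC]
    push_cast
    rfl
  have h2 : (∑ h : H, ‖AC F (h : G)‖ ^ 2) / Fintype.card H ≤ δ * C ^ 2 := by
    rw [← parseval (G := H) fun h => AC F (h : G)]
    calc ∑ ψ : AddChar (Additive H) ℂ, ‖W (toM ψ) (fun h : H => AC F (h : G))‖ ^ 2
        ≤ ∑ ψ : AddChar (Additive H) ℂ,
            δ * ((∑ y : G, ‖W (toM ψ) fun h : H => F (y * h)‖ ^ 2) / Fintype.card G) := by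
          refine Finset.sum_le_sum fun ψ _ => ?_
          rw [hWΘ, Complex.norm_real, Real.norm_of_nonneg (by positivity), sq]
          exact mul_le_mul_of_nonneg_right (hσ (toM ψ)) (by positivity)
      _ = δ * ((∑ y : G, ∑ ψ : AddChar (Additive H) ℂ, ‖W (toM ψ) fun h : H => F (y * h)‖ ^ 2) /
            Fintype.card G) := by
          rw [← Finset.mul_sum, ← Finset.sum_div, Finset.sum_comm]
      _ ≤ δ * C ^ 2 := by
          refine mul_le_mul_of_nonneg_left ?_ hδ0
          rw [div_le_iff₀ hp]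
          calc ∑ y : G, ∑ ψ : AddChar (Additive H) ℂ, ‖W (toM ψ) fun h : H => F (y * h)‖ ^ 2
              ≤ ∑ _y : G, C ^ 2 := by
                refine Finset.sum_le_sum fun y _ => ?_
                rw [parseval (G := H) fun h => F (y * h), div_le_iff₀ hpH]
                calc ∑ h : H, ‖F (y * h)‖ ^ 2 ≤ ∑ _h : H, C ^ 2 :=
                      Finset.sum_le_sum fun h _ => pow_le_pow_left₀ (norm_nonneg _) (hC _) 2
                  _ = C ^ 2 * Fintype.card H := by
                      rw [Finset.sum_const, card_univ, nsmul_eq_mul, mul_comm]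
            _ = C ^ 2 * Fintype.card G := by rw [Finset.sum_const, card_univ, nsmul_eq_mul, mul_comm]
  have h3 : ((∑ h : H, ‖AC F (h : G)‖) / Fintype.card H) ^ 2 ≤ (√δ * C) ^ 2 := by
    have h4 : (∑ h : H, ‖AC F (h : G)‖) ^ 2 ≤ Fintype.card H * ∑ h : H, ‖AC F (h : G)‖ ^ 2 := by
      have := sq_sum_le_card_mul_sum_sq (s := (univ : Finset H)) (f := fun h => ‖AC F (h : G)‖)
      rwa [card_univ] at this
    rw [div_pow, mul_pow, Real.sq_sqrt hδ0]
    refine le_trans ?_ h2
    rw [div_le_div_iff₀ (by positivity) hpH]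
    nlinarith [h4, hpH]
  exact (abs_le_of_sq_le_sq' h3 (by positivity)).2

end

section

variable {Y : Type} [TopologicalSpace Y] [MeasurableSpace Y] [BorelSpace Y]
  {S : Type} {a : Y → Y} {proj : Y → S} {G : Type} [CommGroup G] [Fintype G] {x : G → S}
  {Ω : Type} [MeasurableSpace Ω] {P : Measure Ω} [IsProbabilityMeasure P] {X : Ω → Y} {t : Ω → Ω}
  {q : Ω → G} {c : G}

omit [TopologicalSpace Y] [BorelSpace Y] [IsProbabilityMeasure P] in
theorem Lifts.pow (hL : Lifts a proj x P X t q c) (r : ℕ) :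
    Lifts a^[r] proj x P X t^[r] q (c ^ r) :=
  ⟨hL.measurable, hL.preserves.iterate r, hL.fibre, hL.uniform, hL.iter_X r, hL.iter_q r, hL.proj_eq⟩

omit [BorelSpace Y] in
theorem WeakMix.pow {μ : Measure Y} (h : WeakMix μ a) {r : ℕ} (hr : 1 ≤ r) : WeakMix μ a^[r] := by
  intro F
  have h1 := (h F).comp (tendsto_id.const_mul_atTop' (by omega : 0 < r))
  have h2 := h1.const_mul (r : ℝ)
  rw [mul_zero] at h2
  refine squeeze_zero (fun k => by positivity) (fun k => ?_) h2
  simp only [Function.comp_apply, id_eq]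
  rcases Nat.eq_zero_or_pos k with hk | hk
  · subst hk
    simp
  have hk' : (0 : ℝ) < k := by exact_mod_cast hk
  have hr' : (0 : ℝ) < r := by exact_mod_cast hr
  rw [Nat.cast_mul, ← mul_div_assoc, mul_div_mul_left _ _ hr'.ne']
  refine div_le_div_of_nonneg_right ?_ hk'.le
  have h3 : ∀ l : ℕ, (a^[r])^[l] = a^[r * l] := fun l => (Function.iterate_mul a r l).symm
  simp_rw [h3]
  rw [← sum_image (f := fun l => ‖∫ y, F (a^[l] y) * conj (F y) ∂μ - (∫ y, F y ∂μ) * conj (∫ y, F y ∂μ)‖)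
    (g := fun l => r * l)]
  · refine sum_le_sum_of_subset_of_nonneg ?_ fun _ _ _ => norm_nonneg _
    intro l hl
    rw [mem_image] at hl
    obtain ⟨l', hl', rfl⟩ := hl
    rw [mem_range] at hl' ⊢
    exact Nat.mul_lt_mul_of_pos_left hl' (by omega)
  · intro l _ l' _ he
    exact Nat.eq_of_mul_eq_mul_left (by omega) he

open Classical in
/-- **The twisted sums over the cosets of a subgroup which contains `c`, in mean square.** -/
theorem Lifts.coset_sq_le (hL : Lifts a proj x P X t q c) (ha : Continuous a) (f : S → ℂ) (F : Y →ᵇ ℂ)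
    (hF : ∀ y, F y = f (proj y)) (H : Subgroup G) (hc : c ∈ H) (ψ : H →* ℂ) (k : ℕ) (hk : 0 < k) :
    (∑ y : G, ‖W ψ fun h : H => f (x (y * h))‖ ^ 2) / Fintype.card G ≤
      (∑ j ∈ range k, ∑ l ∈ range k,
        ‖∫ ω, F (a^[j] (X ω)) * conj (F (a^[l] (X ω))) ∂P‖) / (k : ℝ) ^ 2 := by
  have hp := card_pos' (G := G)
  have hpH := card_pos' (G := H)
  have hk' : (0 : ℝ) < k := by exact_mod_cast hk
  set ζ : ℂ := ψ ⟨c, hc⟩ with hζ
  have hζ1 : ‖ζ‖ = 1 := norm_char ψ _
  set Φ : G → ℂ := fun g => ∑ j ∈ range k, ζ ^ j * f (x (c ^ j * g)) with hΦ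
  -- the shift
  have h1 : ∀ y : G, (k : ℂ) * (W ψ fun h : H => f (x (y * h))) = W ψ fun h : H => Φ (y * h) := by
    intro y
    have h2 : ∀ j : ℕ, (W ψ fun h : H => f (x (y * h))) =
        W ψ fun h : H => ζ ^ j * f (x (c ^ j * (y * h))) := by
      intro j
      unfold W
      congr 1
      refine (Fintype.sum_equiv (Equiv.mulRight ((⟨c, hc⟩ : H) ^ j)) _ _ fun h => ?_).symm
      simp only [Equiv.coe_mulRight, map_mul, map_pow, Subgroup.coe_mul, Subgroup.coe_pow, ← hζ]
      rw [show y * ((h : G) * c ^ j) = c ^ j * (y * h) by rw [← mul_assoc, mul_comm]]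
      ring
    have h3 : (k : ℂ) * (W ψ fun h : H => f (x (y * h))) =
        ∑ j ∈ range k, W ψ fun h : H => ζ ^ j * f (x (c ^ j * (y * h))) := by
      rw [← Finset.sum_congr rfl fun j _ => h2 j, sum_const, card_range, nsmul_eq_mul]
    rw [h3]
    unfold W
    rw [← Finset.sum_div, Finset.sum_comm]
    congr 1
    refine Finset.sum_congr rfl fun h _ => ?_
    rw [← Finset.mul_sum]
  -- the mean square
  have h4 : ∀ y : G, (k : ℝ) ^ 2 * ‖W ψ fun h : H => f (x (y * h))‖ ^ 2 ≤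
      (∑ h : H, ‖Φ (y * h)‖ ^ 2) / Fintype.card H := by
    intro y
    have h5 : (k : ℝ) * ‖W ψ fun h : H => f (x (y * h))‖ ≤ (∑ h : H, ‖Φ (y * h)‖) / Fintype.card H := by
      have h6 : (k : ℝ) * ‖W ψ fun h : H => f (x (y * h))‖ =
          ‖(k : ℂ) * (W ψ fun h : H => f (x (y * h)))‖ := by rw [norm_mul, Complex.norm_natCast]
      rw [h6, h1]
      exact W_le ψ fun h : H => Φ (y * h)
    have h7 : (∑ h : H, ‖Φ (y * h)‖) ^ 2 ≤ Fintype.card H * ∑ h : H, ‖Φ (y * h)‖ ^ 2 := by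
      have := sq_sum_le_card_mul_sum_sq (s := (univ : Finset H)) (f := fun h : H => ‖Φ (y * h)‖)
      rwa [card_univ] at this
    calc (k : ℝ) ^ 2 * ‖W ψ fun h : H => f (x (y * h))‖ ^ 2
        = ((k : ℝ) * ‖W ψ fun h : H => f (x (y * h))‖) ^ 2 := by ring
      _ ≤ ((∑ h : H, ‖Φ (y * h)‖) / Fintype.card H) ^ 2 := pow_le_pow_left₀ (by positivity) h5 2
      _ ≤ (∑ h : H, ‖Φ (y * h)‖ ^ 2) / Fintype.card H := by
          rw [div_pow, div_le_div_iff₀ (by positivity) hpH]
          nlinarith [h7, hpH]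
  have h5 : (k : ℝ) ^ 2 * ∑ y : G, ‖W ψ fun h : H => f (x (y * h))‖ ^ 2 ≤ ∑ g : G, ‖Φ g‖ ^ 2 := by
    rw [Finset.mul_sum]
    refine (Finset.sum_le_sum fun y _ => h4 y).trans (le_of_eq ?_)
    rw [← Finset.sum_div, Finset.sum_comm, div_eq_iff hpH.ne']
    have h6 : ∀ h : H, ∑ y : G, ‖Φ (y * h)‖ ^ 2 = ∑ g : G, ‖Φ g‖ ^ 2 := fun h =>
      Fintype.sum_equiv (Equiv.mulRight (h : G)) _ _ fun y => rfl
    rw [Finset.sum_congr rfl fun h _ => h6 h, Finset.sum_const, card_univ, nsmul_eq_mul, mul_comm]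
  -- the sum over the group as an integral
  have hmeasF : ∀ j : ℕ, Measurable fun ω => F (a^[j] (X ω)) := fun j =>
    ((F.continuous.comp (ha.iterate j)).measurable).comp hL.measurable
  have hbF : ∀ j ω, ‖F (a^[j] (X ω))‖ ≤ ‖F‖ := fun j ω => F.norm_coe_le_norm _
  have hΦq : ∀ ω, Φ (q ω) = ∑ j ∈ range k, ζ ^ j * F (a^[j] (X ω)) := by
    intro ω
    refine Finset.sum_congr rfl fun j _ => ?_
    rw [hF, ← hL.iter_X, hL.proj_eq, hL.iter_q]
  have hI : ∀ j l : ℕ, Integrable (fun ω => ζ ^ j * conj (ζ ^ l) *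
      (F (a^[j] (X ω)) * conj (F (a^[l] (X ω))))) P := by
    intro j l
    refine Integrable.of_bound (((hmeasF j).mul
      (Complex.continuous_conj.measurable.comp (hmeasF l))).const_mul _).aestronglyMeasurable
      (‖F‖ * ‖F‖) (Eventually.of_forall fun ω => ?_)
    rw [norm_mul, norm_mul, norm_mul, Complex.norm_conj, Complex.norm_conj, norm_pow, norm_pow,
      hζ1, one_pow, one_pow, one_mul, one_mul]
    exact mul_le_mul (hbF j ω) (hbF l ω) (norm_nonneg _) (norm_nonneg _)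
  have h6 : (∑ g : G, ‖Φ g‖ ^ 2) / Fintype.card G ≤ ∑ j ∈ range k, ∑ l ∈ range k,
      ‖∫ ω, F (a^[j] (X ω)) * conj (F (a^[l] (X ω))) ∂P‖ := by
    have e1 : (((∑ g : G, ‖Φ g‖ ^ 2) / Fintype.card G : ℝ) : ℂ) = ∑ j ∈ range k, ∑ l ∈ range k,
        ζ ^ j * conj (ζ ^ l) * ∫ ω, F (a^[j] (X ω)) * conj (F (a^[l] (X ω))) ∂P := by
      have e2 := hL.integral_q fun g => ((‖Φ g‖ ^ 2 : ℝ) : ℂ)
      have e3 : ∀ ω, ((‖Φ (q ω)‖ ^ 2 : ℝ) : ℂ) = ∑ j ∈ range k, ∑ l ∈ range k,
          ζ ^ j * conj (ζ ^ l) * (F (a^[j] (X ω)) * conj (F (a^[l] (X ω)))) := by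
        intro ω
        rw [Complex.ofReal_pow, ← Complex.mul_conj', hΦq, map_sum, Finset.sum_mul_sum]
        refine Finset.sum_congr rfl fun j _ => Finset.sum_congr rfl fun l _ => ?_
        rw [map_mul]
        ring
      push_cast at e2 ⊢
      rw [← e2]
      have e4 : ∀ ω, ((‖Φ (q ω)‖ : ℂ)) ^ 2 = ∑ j ∈ range k, ∑ l ∈ range k,
          ζ ^ j * conj (ζ ^ l) * (F (a^[j] (X ω)) * conj (F (a^[l] (X ω)))) := by
        intro ω
        rw [← e3]
        push_cast
        rfl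
      rw [integral_congr_ae (Eventually.of_forall e4), integral_finsetSum]
      · refine Finset.sum_congr rfl fun j _ => ?_
        rw [integral_finsetSum]
        · refine Finset.sum_congr rfl fun l _ => ?_
          rw [integral_const_mul, map_pow]
        · intro l _
          exact hI j l
      · intro j _
        exact integrable_finset_sum _ fun l _ => hI j l
    have h7 : (∑ g : G, ‖Φ g‖ ^ 2) / Fintype.card G =
        ‖(((∑ g : G, ‖Φ g‖ ^ 2) / Fintype.card G : ℝ) : ℂ)‖ := by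
      rw [Complex.norm_real, Real.norm_of_nonneg (by positivity)]
    rw [h7, e1]
    refine (norm_sum_le _ _).trans (Finset.sum_le_sum fun j _ => ?_)
    refine (norm_sum_le _ _).trans (Finset.sum_le_sum fun l _ => ?_)
    rw [norm_mul, norm_mul, Complex.norm_conj, norm_pow, norm_pow, hζ1, one_pow, one_pow,
      one_mul, one_mul]
  rw [le_div_iff₀ (by positivity)]
  calc (∑ y : G, ‖W ψ fun h : H => f (x (y * h))‖ ^ 2) / Fintype.card G * (k : ℝ) ^ 2
      = ((k : ℝ) ^ 2 * ∑ y : G, ‖W ψ fun h : H => f (x (y * h))‖ ^ 2) / Fintype.card G := by ring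
    _ ≤ (∑ g : G, ‖Φ g‖ ^ 2) / Fintype.card G := by gcongr
    _ ≤ _ := h6

end

end Pool.Agent.Q12.CM
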