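import Pool.Agent.Q12.CM.Grp

/-! # All translates and inverses -/

set_option autoImplicit false

open Finset
open scoped ComplexConjugate

namespace Pool.Agent.Q12.CM

variable {G : Type*} [CommGroup G] [Fintype G]

/-- the average over the subgroup `B` -/
noncomputable def ES {κ : Type*} [Fintype κ] (F : κ → G → ℂ) (B : Subgroup G) (a : κ → G) : ℂ :=
  (∑ᶠ b : B, ∏ j, F j (b * a j)) / Nat.card B

open Classical in
theorem ES_eq {κ : Type*} [Fintype κ] (F : κ → G → ℂ) (B : Subgroup G) (a : κ → G) :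
    ES F B a = EB F (univ.filter fun g => g ∈ B) a := by
  unfold ES EB
  rw [finsum_eq_sum_of_fintype]
  have h1 : Nat.card B = (univ.filter fun g => g ∈ B).card := by
    rw [Nat.card_eq_fintype_card, ← Fintype.card_subtype]
  rw [h1]
  congr 1
  exact (Finset.sum_subtype (univ.filter fun g => g ∈ B) (fun x => by simp) fun b => ∏ j, F j (b * a j)).symm

omit [Fintype G] in
theorem ES_mul {κ : Type*} [Fintype κ] (F : κ → G → ℂ) (B : Subgroup G) (a : κ → G) {c : G} (hc : c ∈ B) :
    ES F B (fun j => c * a j) = ES F B a := by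
  unfold ES
  congr 1
  refine finsum_eq_of_bijective (fun b : B => b * ⟨c, hc⟩) (Group.mulRight_bijective _) fun b => ?_
  refine Finset.prod_congr rfl fun j _ => ?_
  rw [Subgroup.coe_mul, mul_assoc]

theorem card_le_index {B : Subgroup G} {M : ℕ} (hM : B.index ≤ M) :
    (Fintype.card G : ℝ) ≤ M * Nat.card B := by
  have h := B.index_mul_card
  rw [← Nat.card_eq_fintype_card, ← h]
  push_cast
  gcongr

/-- **Almost all tuples, for all translates and their inverses.** -/
theorem count_all {n : ℕ} {F : Fin n → G → ℂ} {m : Fin n → ℂ} {C w : ℝ} (hC1 : 1 ≤ C)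
    (hC : ∀ j g, ‖F j g‖ ≤ C) (hm : ∀ j, ‖m j‖ ≤ C) {B : Subgroup G} {M : ℕ} (hM : B.index ≤ M)
    (hW : ∀ j, ∀ χ : G →* ℂ, ‖W χ fun g => F j g - m j‖ ≤ w) {ε : ℝ} (hε : 0 < ε) :
    ({a : Fin n → G | ∃ x : G, ε < ‖ES F B (fun j => x * a j) - ∏ j, m j‖ ∨
      ε < ‖ES F B (fun j => x * (a j)⁻¹) - ∏ j, m j‖}.ncard : ℝ) ≤
      2 * M * (n * (√(M * w) * (2 * C) ^ n) / ε) * (Fintype.card G : ℝ) ^ n := by
  classical
  set B' : Finset G := univ.filter fun g => g ∈ B with hB'
  have hBne : B'.Nonempty := ⟨1, by simp [hB', B.one_mem]⟩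
  have hcard : Nat.card B = B'.card := by
    rw [Nat.card_eq_fintype_card, ← Fintype.card_subtype]
  have hM' : (Fintype.card G : ℝ) ≤ (M : ℝ) * B'.card := by
    rw [← hcard]
    exact card_le_index hM
  have h1 := count_one hC1 hC hm hBne hM' hW hε
  set R : ℝ := n * (√(M * w) * (2 * C) ^ n) / ε with hR
  have hR0 : 0 ≤ R := by positivity
  set T : Finset (Fin n → G) := univ.filter fun a => ε < ‖EB F B' a - ∏ j, m j‖ with hT
  -- the union over the cosets
  set U : Finset (Fin n → G) := (univ : Finset (G ⧸ B)).biUnion fun q =>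
    T.image fun a j => (Quotient.out q)⁻¹ * a j with hU
  have hUcard : (U.card : ℝ) ≤ M * (R * (Fintype.card G : ℝ) ^ n) := by
    have h2 : U.card ≤ Fintype.card (G ⧸ B) * T.card := by
      refine card_biUnion_le.trans ?_
      refine (Finset.sum_le_card_nsmul _ _ T.card fun q _ => card_image_le).trans ?_
      rw [smul_eq_mul, card_univ]
    have h3 : Fintype.card (G ⧸ B) = B.index := by
      rw [← Nat.card_eq_fintype_card]
      rfl
    have h4 : (U.card : ℝ) ≤ (M : ℝ) * T.card := by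
      have h5 : U.card ≤ M * T.card := h2.trans (Nat.mul_le_mul_right _ (by rw [h3]; exact hM))
      exact_mod_cast h5
    exact h4.trans (mul_le_mul_of_nonneg_left h1 (by positivity))
  have hmem : ∀ (x : G) (a : Fin n → G), ε < ‖ES F B (fun j => x * a j) - ∏ j, m j‖ → a ∈ U := by
    intro x a hx
    rw [hU, mem_biUnion]
    refine ⟨QuotientGroup.mk x, mem_univ _, ?_⟩
    obtain ⟨b, hb⟩ := QuotientGroup.mk_out_eq_mul B x
    have ho : Quotient.out (QuotientGroup.mk x : G ⧸ B) = x * b := hb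
    rw [mem_image]
    refine ⟨fun j => (x * b) * a j, ?_, ?_⟩
    · rw [hT, mem_filter]
      refine ⟨mem_univ _, ?_⟩
      have h5 := ES_mul F B (fun j => x * a j) b.2
      rw [← ES_eq]
      have e : (fun j => x * (b : G) * a j) = fun j => (b : G) * (x * a j) := by
        funext j
        rw [mul_comm x, mul_assoc]
      rw [e, h5]
      exact hx
    · funext j
      rw [ho]
      group
  have hsub : {a : Fin n → G | ∃ x : G, ε < ‖ES F B (fun j => x * a j) - ∏ j, m j‖ ∨
      ε < ‖ES F B (fun j => x * (a j)⁻¹) - ∏ j, m j‖} ⊆ ((U ∪ U.image fun a j => (a j)⁻¹ : Finset _) : Set _) := by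
    rintro a ⟨x, hx | hx⟩
    · exact mem_coe.2 (mem_union_left _ (hmem x a hx))
    · refine mem_coe.2 (mem_union_right _ (mem_image.2 ⟨fun j => (a j)⁻¹, hmem x _ hx, ?_⟩))
      funext j
      exact inv_inv _
  have h6 := Set.ncard_le_ncard hsub (Finset.finite_toSet _)
  rw [Set.ncard_coe_finset] at h6
  have h7 : (U ∪ U.image fun a j => (a j)⁻¹).card ≤ 2 * U.card := by
    refine (card_union_le _ _).trans ?_
    have := card_image_le (s := U) (f := fun a j => (a j)⁻¹)
    omega
  have h8 : (({a : Fin n → G | ∃ x : G, ε < ‖ES F B (fun j => x * a j) - ∏ j, m j‖ ∨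
      ε < ‖ES F B (fun j => x * (a j)⁻¹) - ∏ j, m j‖}.ncard : ℕ) : ℝ) ≤ 2 * U.card := by
    exact_mod_cast h6.trans h7
  refine h8.trans ?_
  calc 2 * (U.card : ℝ) ≤ 2 * (M * (R * (Fintype.card G : ℝ) ^ n)) := by gcongr
    _ = 2 * M * R * (Fintype.card G : ℝ) ^ n := by ring

/-- subtraction of the mean -/
theorem W_sub (χ : G →* ℂ) [Decidable (χ = 1)] (F : G → ℂ) (m : ℂ) :
    W χ (fun g => F g - m) = W χ F - if χ = 1 then m else 0 := by
  have hc := card_ne (G := G)
  unfold W
  simp_rw [mul_sub, Finset.sum_sub_distrib, ← Finset.sum_mul]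
  rw [sum_hom_units χ]
  split_ifs
  · field_simp
  · simp

end Pool.Agent.Q12.CM
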