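import Pool.Agent.Q12.CM.Sub

/-! # From almost all pairs to twisted sums -/

set_option autoImplicit false

open Finset
open scoped ComplexConjugate

namespace Pool.Agent.Q12.CM

variable {G : Type*} [CommGroup G] [Fintype G]

lemma norm_char (χ : G →* ℂ) (g : G) : ‖χ g‖ = 1 := by
  have h1 : χ g ^ Fintype.card G = 1 := by rw [← map_pow, pow_card_eq_one, map_one]
  exact Complex.norm_eq_one_of_pow_eq_one h1 Fintype.card_ne_zero

lemma conj_char (χ : G →* ℂ) (g : G) : conj (χ g) = χ g⁻¹ := by
  have h1 : χ g * χ g⁻¹ = 1 := by rw [← map_mul, mul_inv_cancel, map_one]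
  have h2 : χ g * conj (χ g) = 1 := by
    rw [Complex.mul_conj', norm_char]
    norm_num
  have h3 : χ g ≠ 0 := by
    intro h
    rw [h, zero_mul] at h1
    exact zero_ne_one h1
  exact mul_left_cancel₀ h3 (h2.trans h1.symm)

/-- the Fourier coefficients of the autocorrelation -/
theorem W_AC' (χ : G →* ℂ) (F : G → ℂ) : W χ (AC F) = ((‖W χ F‖ ^ 2 : ℝ) : ℂ) := by
  classical
  have hc := card_ne (G := G)
  push_cast
  rw [← Complex.mul_conj', W, W, map_div₀, map_sum, Complex.conj_natCast, div_mul_div_comm, ← sq,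
    Finset.sum_mul_sum]
  have h1 : ∑ u, χ u * AC F u = (∑ g', ∑ u, χ u * (F (u * g') * conj (F g'))) / Fintype.card G := by
    unfold AC
    simp_rw [mul_div_assoc', Finset.mul_sum]
    rw [← Finset.sum_div, Finset.sum_comm]
  rw [h1]
  have h2 : ∀ g' : G, ∑ u, χ u * (F (u * g') * conj (F g')) =
      ∑ g, χ g * F g * conj (χ g' * F g') := by
    intro g'
    refine Fintype.sum_equiv (Equiv.mulRight g') _ _ fun u => ?_
    simp only [Equiv.coe_mulRight]
    rw [map_mul conj, conj_char, map_mul χ]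
    have e : χ g' * χ g'⁻¹ = 1 := by rw [← map_mul, mul_inv_cancel, map_one]
    linear_combination -(χ u * F (u * g') * conj (F g')) * e
  simp_rw [h2]
  rw [Finset.sum_comm, div_div, ← sq]

theorem W_le (χ : G →* ℂ) (F : G → ℂ) : ‖W χ F‖ ≤ (∑ g, ‖F g‖) / Fintype.card G := by
  unfold W
  rw [norm_div, Complex.norm_natCast]
  refine div_le_div_of_nonneg_right ?_ (Nat.cast_nonneg _)
  refine (norm_sum_le _ _).trans (le_of_eq (Finset.sum_congr rfl fun g _ => ?_))
  rw [norm_mul, norm_char, one_mul]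

/-- the average over the whole group of a product of two functions is the autocorrelation -/
theorem ES_two (F : G → ℂ) (a : Fin 2 → G) :
    ES ![F, fun g => conj (F g)] (⊤ : Subgroup G) a = AC F (a 0 * (a 1)⁻¹) := by
  classical
  unfold ES AC
  rw [finsum_eq_sum_of_fintype, Subgroup.card_top, Nat.card_eq_fintype_card]
  congr 1
  have h1 : ∑ b : (⊤ : Subgroup G), ∏ j, (![F, fun g => conj (F g)] : Fin 2 → G → ℂ) j (b * a j) =
      ∑ b : G, ∏ j, (![F, fun g => conj (F g)] : Fin 2 → G → ℂ) j (b * a j) :=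
    Fintype.sum_equiv Subgroup.topEquiv.toEquiv _ _ fun _ => rfl
  rw [h1]
  simp only [Fin.prod_univ_two, Matrix.cons_val_zero, Matrix.cons_val_one]
  refine Fintype.sum_equiv (Equiv.mulRight (a 1)) _ _ fun b => ?_
  simp only [Equiv.coe_mulRight]
  congr 2
  rw [show a 0 * (a 1)⁻¹ * (b * a 1) = b * a 0 by rw [mul_comm b (a 1), ← mul_assoc,
    inv_mul_cancel_right, mul_comm]]

/-- **Twisted sums from almost all pairs.** -/
theorem W_of_pairs {F : G → ℂ} {C ε : ℝ} (hC : ∀ g, ‖F g‖ ≤ C) {m : ℂ} (hm : ‖m‖ ≤ C) (hε : 0 ≤ ε)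
    (h : ({a : Fin 2 → G | ε < ‖ES ![F, fun g => conj (F g)] ⊤ a - m * conj m‖}.ncard : ℝ) ≤
      ε * (Fintype.card G : ℝ) ^ 2) (χ : G →* ℂ) (hχ : χ ≠ 1) :
    ‖W χ F‖ ^ 2 ≤ ε * (1 + 2 * C ^ 2) := by
  classical
  have hp := card_pos' (G := G)
  have hC0 : 0 ≤ C := (norm_nonneg _).trans hm
  -- the mean over the pairs
  have hle : ∀ u, ‖AC F u - m * conj m‖ ≤ 2 * C ^ 2 := by
    intro u
    refine (norm_sub_le _ _).trans ?_
    have h1 : ‖AC F u‖ ≤ C ^ 2 := by
      unfold AC
      rw [norm_div, Complex.norm_natCast, div_le_iff₀ hp]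
      refine (norm_sum_le _ _).trans ?_
      calc ∑ g, ‖F (u * g) * conj (F g)‖ ≤ ∑ _g : G, C ^ 2 := by
            refine Finset.sum_le_sum fun g _ => ?_
            rw [norm_mul, Complex.norm_conj, sq]
            exact mul_le_mul (hC _) (hC _) (norm_nonneg _) hC0
        _ = C ^ 2 * Fintype.card G := by rw [Finset.sum_const, card_univ, nsmul_eq_mul, mul_comm]
    have h2 : ‖m * conj m‖ ≤ C ^ 2 := by
      rw [norm_mul, Complex.norm_conj, sq]
      exact mul_le_mul hm hm (norm_nonneg _) hC0
    linarith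
  -- the set of the bad `u`
  set U : Finset G := univ.filter fun u => ε < ‖AC F u - m * conj m‖ with hU
  have hcard : (U.card : ℝ) * Fintype.card G ≤ ε * (Fintype.card G : ℝ) ^ 2 := by
    refine le_trans ?_ h
    have hinj : (U ×ˢ (univ : Finset G)).card ≤
        ({a : Fin 2 → G | ε < ‖ES ![F, fun g => conj (F g)] ⊤ a - m * conj m‖}).ncard := by
      rw [← Set.ncard_coe_finset]
      refine Set.ncard_le_ncard_of_injOn (fun p : G × G => ![p.1 * p.2, p.2]) ?_ ?_ (Set.toFinite _)
      · rintro ⟨u, v⟩ hp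
        rw [mem_coe, mem_product, hU, mem_filter] at hp
        rw [Set.mem_ofPred_eq]
        rw [ES_two]
        simp only [Matrix.cons_val_zero, Matrix.cons_val_one, mul_inv_cancel_right]
        exact hp.1.2
      · rintro ⟨u, v⟩ _ ⟨u', v'⟩ _ he
        have h1 := congrFun he 0
        have h2 := congrFun he 1
        simp only [Matrix.cons_val_zero, Matrix.cons_val_one] at h1 h2
        subst h2
        rw [mul_left_inj] at h1
        rw [h1]
    rw [card_product, card_univ] at hinj
    exact_mod_cast hinj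
  have hU2 : (U.card : ℝ) ≤ ε * Fintype.card G := by
    have h3 : (U.card : ℝ) * Fintype.card G ≤ (ε * Fintype.card G) * Fintype.card G := by
      linarith [hcard, sq (Fintype.card G : ℝ)]
    exact le_of_mul_le_mul_right h3 hp
  have hsum : (∑ u, ‖AC F u - m * conj m‖) / Fintype.card G ≤ ε * (1 + 2 * C ^ 2) := by
    rw [div_le_iff₀ hp]
    calc ∑ u, ‖AC F u - m * conj m‖ ≤ ∑ u : G, (ε + if u ∈ U then 2 * C ^ 2 else 0) := by
          refine Finset.sum_le_sum fun u _ => ?_
          split_ifs with hu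
          · linarith [hle u]
          · rw [hU, mem_filter] at hu
            push Not at hu
            linarith [hu (mem_univ u)]
      _ = Fintype.card G * ε + U.card * (2 * C ^ 2) := by
          have hUU : univ.filter (fun u => u ∈ U) = U := by
            ext u
            simp
          rw [Finset.sum_add_distrib, Finset.sum_const, card_univ, nsmul_eq_mul,
            ← Finset.sum_filter, Finset.sum_const, nsmul_eq_mul, hUU]
      _ ≤ Fintype.card G * ε + (ε * Fintype.card G) * (2 * C ^ 2) := by gcongr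
      _ = ε * (1 + 2 * C ^ 2) * Fintype.card G := by ring
  have hW : W χ (fun u => AC F u - m * conj m) = ((‖W χ F‖ ^ 2 : ℝ) : ℂ) := by
    rw [W_sub, if_neg hχ, sub_zero, W_AC']
  have h4 := W_le χ fun u => AC F u - m * conj m
  rw [hW, Complex.norm_real, Real.norm_of_nonneg (by positivity)] at h4
  exact h4.trans hsum

end Pool.Agent.Q12.CM
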